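import Mathlib
import Pool.Agent.H336R4.PF.R5

/-!
# Exact residues when shifting vertical lines
-/

set_option autoImplicit false

namespace Pool.Agent.H475R3.PO

open MeasureTheory Set Filter Topology Complex
open Pool.Agent.H336R4.PF

lemma gauss_bound (h t : ℝ) : ‖cexp (((h : ℂ) + t * I) ^ 2)‖ ≤
    Real.exp (h ^ 2 + 1 / 4) * Real.exp (-1 * |t|) := by
  rw [Complex.norm_exp, ← Real.exp_add]
  apply Real.exp_le_exp.2
  have : (((h : ℂ) + t * I) ^ 2).re = h ^ 2 - t ^ 2 := by
    simp [pow_two]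
  rw [this, ← sq_abs t]
  nlinarith [sq_nonneg (|t| - 1 / 2)]

lemma gauss_diff (z : ℂ) : DifferentiableAt ℂ (fun z : ℂ => cexp (z ^ 2)) z := by fun_prop

/-- `∫ exp((h+it)²)/(h+it) dt = π` for `h > 0`. -/
lemma gauss_line {h : ℝ} (hh : 0 < h) :
    ∫ t : ℝ, cexp (((h : ℂ) + t * I) ^ 2) / ((h : ℂ) + t * I) = Real.pi := by
  set g : ℂ → ℂ := fun z => cexp (z ^ 2) with hg
  have hd : ∀ t : ℝ, DifferentiableAt ℂ g (((0 + h : ℝ) : ℂ) + t * I) := fun t => gauss_diff _
  have hb : ∀ t : ℝ, ‖g (((0 + h : ℝ) : ℂ) + t * I)‖ ≤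
      Real.exp (h ^ 2 + 1 / 4) * Real.exp (-1 * |t|) := by
    intro t
    rw [zero_add]
    exact gauss_bound h t
  have hne : h ≠ 0 := hh.ne'
  -- value of the derivative
  have hval : ∀ u : ℝ, LI g 0 h 0 u = ((√Real.pi * Real.exp (-(1 / 4) * u ^ 2) : ℝ) : ℂ) := by
    intro u
    unfold LI
    have e1 : ∀ t : ℝ, g (((0 + h : ℝ) : ℂ) + t * I) * cexp (-((h : ℂ) + t * I) * u) /
        ((h : ℂ) + t * I) ^ 0 = cexp ((-1 : ℂ) * (t : ℂ) ^ 2 + ((2 * h - u : ℝ) * I) * t +
          (h ^ 2 - h * u : ℝ)) := by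
      intro t
      rw [pow_zero, div_one, hg]
      simp only
      rw [← Complex.exp_add]
      congr 1
      push_cast
      linear_combination (t ^ 2 : ℂ) * I_sq
    simp only [e1]
    rw [integral_cexp_quadratic (by simp)]
    have e2 : ((Real.pi : ℂ) / -(-1)) ^ (1 / 2 : ℂ) = ((√Real.pi : ℝ) : ℂ) := by
      rw [neg_neg, div_one, Real.sqrt_eq_rpow, Complex.ofReal_cpow Real.pi_pos.le]
      norm_num
    rw [e2]
    push_cast
    congr 2
    linear_combination (-(2 * h - u) ^ 2 / (4 : ℂ)) * (-I_sq)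
  have hder : ∀ u ∈ Ici (0 : ℝ), HasDerivAt (LI g 0 h 1)
      (-((√Real.pi * Real.exp (-(1 / 4) * u ^ 2) : ℝ) : ℂ)) u := by
    intro u _
    have := LI_deriv one_pos hne hd hb 0 u
    rw [hval u] at this
    exact this
  have hint : IntegrableOn (fun u : ℝ => (-((√Real.pi * Real.exp (-(1 / 4) * u ^ 2) : ℝ) : ℂ)))
      (Ioi 0) := by
    have h1 : Integrable (fun u : ℝ => √Real.pi * Real.exp (-(1 / 4) * u ^ 2)) :=
      (integrable_exp_neg_mul_sq (by norm_num : (0 : ℝ) < 1 / 4)).const_mul _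
    exact h1.ofReal.neg.integrableOn
  have hlim : Tendsto (LI g 0 h 1) atTop (𝓝 0) := by
    have hbd : ∀ u : ℝ, ‖LI g 0 h 1 u‖ ≤ Real.exp (-h * u) *
        ((Real.exp (h ^ 2 + 1 / 4) * |h|⁻¹) * ∫ t : ℝ, Real.exp (-1 * |t|)) := by
      intro u
      unfold LI
      refine (norm_integral_le_integral_norm _).trans ?_
      have h1 : ∀ t : ℝ, ‖g (((0 + h : ℝ) : ℂ) + t * I) * cexp (-((h : ℂ) + t * I) * u) /
          ((h : ℂ) + t * I) ^ 1‖ ≤ (Real.exp (h ^ 2 + 1 / 4) * (Real.exp (-h * u) * (|h|⁻¹) ^ 1)) *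
          Real.exp (-1 * |t|) := fun t => LI_bound hne hb 1 u t
      refine (integral_mono_of_nonneg (Eventually.of_forall fun t => norm_nonneg _)
        ((integrable_exp_abs one_pos).const_mul _) (Eventually.of_forall h1)).trans ?_
      rw [integral_const_mul]
      apply le_of_eq
      ring
    apply squeeze_zero_norm hbd
    have h2 : Tendsto (fun u : ℝ => Real.exp (-h * u)) atTop (𝓝 0) := by
      apply Real.tendsto_exp_atBot.comp
      exact tendsto_id.const_mul_atTop_of_neg (by linarith)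
    have := h2.mul_const ((Real.exp (h ^ 2 + 1 / 4) * |h|⁻¹) * ∫ t : ℝ, Real.exp (-1 * |t|))
    rw [zero_mul] at this
    exact this
  have hfin := integral_Ioi_of_hasDerivAt_of_tendsto' hder hint hlim
  rw [zero_sub, integral_neg, neg_inj, integral_complex_ofReal, integral_const_mul,
    integral_gaussian_Ioi] at hfin
  have e3 : LI g 0 h 1 0 = ∫ t : ℝ, cexp (((h : ℂ) + t * I) ^ 2) / ((h : ℂ) + t * I) := by
    unfold LI
    congr 1
    funext t
    rw [hg]
    simp
  rw [← e3, ← hfin]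
  norm_cast
  have h5 : √(Real.pi / (1 / 4)) = 2 * √Real.pi := by
    rw [show Real.pi / (1 / 4) = 2 ^ 2 * Real.pi by ring, Real.sqrt_mul (by norm_num),
      Real.sqrt_sq (by norm_num)]
  rw [h5]
  have := Real.mul_self_sqrt Real.pi_pos.le
  nlinarith

/-- the line on the left -/
lemma gauss_line_neg {h : ℝ} (hh : 0 < h) :
    ∫ t : ℝ, cexp ((((-h : ℝ) : ℂ) + t * I) ^ 2) / (((-h : ℝ) : ℂ) + t * I) = -Real.pi := by
  rw [← gauss_line hh, ← integral_neg]
  rw [← integral_neg_eq_self]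
  congr 1
  funext t
  have e1 : (((-h : ℝ) : ℂ) + ((-t : ℝ) : ℂ) * I) = -((h : ℂ) + t * I) := by push_cast; ring
  rw [e1, neg_sq, div_neg]

/-- **exact residue** -/
theorem residue {f : ℂ → ℂ} {p h C δ : ℝ} (hδ : 0 < δ) (hh : 0 < h)
    (hd : ∀ z : ℂ, p - h ≤ z.re → z.re ≤ p + h → DifferentiableAt ℂ f z)
    (hb : ∀ z : ℂ, p - h ≤ z.re → z.re ≤ p + h → ‖f z‖ ≤ C * Real.exp (-δ * |z.im|)) :
    (∫ t : ℝ, f (((p + h : ℝ) : ℂ) + t * I) / ((h : ℂ) + t * I)) -
      (∫ t : ℝ, f (((p - h : ℝ) : ℂ) + t * I) / (((-h : ℝ) : ℂ) + t * I)) =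
      2 * Real.pi * f p := by
  set F : ℂ → ℂ := fun s => f s - f p * cexp ((s - p) ^ 2) with hF
  have hFp : F p = 0 := by simp [hF]
  have hFd : ∀ z : ℂ, p - h ≤ z.re → z.re ≤ p + h → DifferentiableAt ℂ F z := by
    intro z h1 h2
    exact (hd z h1 h2).sub (by fun_prop)
  set q : ℂ → ℂ := dslope F p with hq
  have hqne : ∀ z : ℂ, z ≠ p → q z = F z / (z - p) := by
    intro z hz
    rw [hq, dslope_of_ne _ hz, slope_def_field, hFp, sub_zero]
  -- differentiability of q
  have hqd : ∀ z : ℂ, p - h ≤ z.re → z.re ≤ p + h → DifferentiableAt ℂ q z := by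
    intro z h1 h2
    by_cases hz : z = p
    · subst hz
      have hU : IsOpen {w : ℂ | p - h < w.re ∧ w.re < p + h} :=
        (isOpen_lt continuous_const Complex.continuous_re).inter
          (isOpen_lt Complex.continuous_re continuous_const)
      have hpU : (p : ℂ) ∈ {w : ℂ | p - h < w.re ∧ w.re < p + h} := by
        simp only [mem_ofPred_eq, Complex.ofReal_re]
        constructor <;> linarith
      have h3 : DifferentiableOn ℂ F {w : ℂ | p - h < w.re ∧ w.re < p + h} := fun w hw =>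
        (hFd w hw.1.le hw.2.le).differentiableWithinAt
      exact ((Complex.differentiableOn_dslope (hU.mem_nhds hpU)).2 h3).differentiableAt
        (hU.mem_nhds hpU)
    · have h3 : q =ᶠ[𝓝 z] fun w => F w / (w - p) := by
        filter_upwards [isOpen_ne.mem_nhds hz] with w hw
        exact hqne w hw
      refine DifferentiableAt.congr_of_eventuallyEq ?_ h3
      exact (hFd z h1 h2).div (by fun_prop) (sub_ne_zero.2 hz)
  -- bound of F
  set δ' : ℝ := min δ 1 with hδ'
  have hδ'0 : 0 < δ' := lt_min hδ one_pos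
  have hC0 : 0 ≤ C := by
    have := (norm_nonneg _).trans (hb p (by simp; linarith) (by simp; linarith))
    simpa using this
  set C1 : ℝ := C + ‖f p‖ * Real.exp (h ^ 2 + 1 / 4) with hC1
  have hC10 : 0 ≤ C1 := by positivity
  have hFb : ∀ z : ℂ, p - h ≤ z.re → z.re ≤ p + h → ‖F z‖ ≤ C1 * Real.exp (-δ' * |z.im|) := by
    intro z h1 h2
    have h3 := hb z h1 h2
    have h4 : Real.exp (-δ * |z.im|) ≤ Real.exp (-δ' * |z.im|) := by
      apply Real.exp_le_exp.2
      have := min_le_left δ 1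
      nlinarith [abs_nonneg z.im]
    have h5 : ‖cexp ((z - p) ^ 2)‖ ≤ Real.exp (h ^ 2 + 1 / 4) * Real.exp (-δ' * |z.im|) := by
      have e1 : z - p = ((z.re - p : ℝ) : ℂ) + z.im * I := by
        apply Complex.ext <;> simp
      rw [e1]
      refine (gauss_bound _ _).trans ?_
      have h6 : (z.re - p) ^ 2 ≤ h ^ 2 := by
        apply sq_le_sq'
        · linarith
        · linarith
      gcongr
      apply min_le_right
    calc ‖F z‖ ≤ ‖f z‖ + ‖f p‖ * ‖cexp ((z - p) ^ 2)‖ := by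
          rw [hF]; simp only
          refine (norm_sub_le _ _).trans ?_
          rw [norm_mul]
      _ ≤ C * Real.exp (-δ' * |z.im|) + ‖f p‖ * (Real.exp (h ^ 2 + 1 / 4) *
          Real.exp (-δ' * |z.im|)) := by
        gcongr
        exact h3.trans (by gcongr)
      _ = _ := by rw [hC1]; ring
  -- bound of q
  obtain ⟨M, hM⟩ : ∃ M : ℝ, ∀ z : ℂ, p - h ≤ z.re → z.re ≤ p + h → |z.im| ≤ 1 → ‖q z‖ ≤ M := by
    have hK : IsCompact (Icc (p - h) (p + h) ×ℂ Icc (-1 : ℝ) 1) := isCompact_Icc.reProdIm isCompact_Icc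
    have hcont : ContinuousOn q (Icc (p - h) (p + h) ×ℂ Icc (-1 : ℝ) 1) := by
      intro z hz
      rw [Complex.mem_reProdIm] at hz
      exact (hqd z hz.1.1 hz.1.2).continuousAt.continuousWithinAt
    obtain ⟨M, hM⟩ := hK.exists_bound_of_continuousOn hcont
    refine ⟨M, fun z h1 h2 h3 => hM z ?_⟩
    rw [Complex.mem_reProdIm]
    exact ⟨⟨h1, h2⟩, abs_le.1 h3⟩
  have hM0 : 0 ≤ M := (norm_nonneg _).trans (hM p (by simp; linarith) (by simp; linarith) (by simp))
  have hqb : ∀ z : ℂ, p - h ≤ z.re → z.re ≤ p + h →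
      ‖q z‖ ≤ (C1 + M * Real.exp δ') * Real.exp (-δ' * |z.im|) := by
    intro z h1 h2
    rcases le_total |z.im| 1 with h3 | h3
    · refine (hM z h1 h2 h3).trans ?_
      have h4 : 1 ≤ Real.exp δ' * Real.exp (-δ' * |z.im|) := by
        rw [← Real.exp_add]
        apply Real.one_le_exp
        nlinarith
      calc M ≤ M * (Real.exp δ' * Real.exp (-δ' * |z.im|)) := le_mul_of_one_le_right hM0 h4
        _ ≤ _ := by
          have := mul_nonneg hC10 (Real.exp_pos (-δ' * |z.im|)).le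
          nlinarith
    · have hne : z ≠ p := by
        intro h0
        rw [h0] at h3
        simp at h3
        linarith
      have h4 : 1 ≤ ‖z - p‖ := by
        have := Complex.abs_im_le_norm (z - p)
        simp at this
        linarith
      rw [hqne z hne, norm_div, div_le_iff₀ (by linarith)]
      calc ‖F z‖ ≤ C1 * Real.exp (-δ' * |z.im|) := hFb z h1 h2
        _ ≤ (C1 + M * Real.exp δ') * Real.exp (-δ' * |z.im|) := by
          gcongr
          have : 0 ≤ M * Real.exp δ' := by positivity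
          linarith
        _ ≤ (C1 + M * Real.exp δ') * Real.exp (-δ' * |z.im|) * ‖z - p‖ := by
          apply le_mul_of_one_le_right _ h4
          positivity
  have hsh := vshift (g := q) hδ'0 (by linarith : p - h ≤ p + h) hqd hqb
  -- split the integrals
  have hsplit : ∀ k : ℝ, k ≠ 0 → |k| ≤ h → ∫ t : ℝ, q (((p + k : ℝ) : ℂ) + t * I) =
      (∫ t : ℝ, f (((p + k : ℝ) : ℂ) + t * I) / ((k : ℂ) + t * I)) -
      f p * ∫ t : ℝ, cexp (((k : ℂ) + t * I) ^ 2) / ((k : ℂ) + t * I) := by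
    intro k hk hkh
    have hk2 := abs_le.1 hkh
    have hb1 : ∀ t : ℝ, ‖f (((p + k : ℝ) : ℂ) + t * I)‖ ≤ C * Real.exp (-δ * |t|) := fun t => by
      have := hb (((p + k : ℝ) : ℂ) + t * I) (by rw [vline_re]; linarith) (by rw [vline_re]; linarith)
      rwa [vline_im] at this
    have hd1 : ∀ t : ℝ, DifferentiableAt ℂ f (((p + k : ℝ) : ℂ) + t * I) := fun t =>
      hd _ (by rw [vline_re]; linarith) (by rw [vline_re]; linarith)
    have i1 : Integrable fun t : ℝ => f (((p + k : ℝ) : ℂ) + t * I) / ((k : ℂ) + t * I) := by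
      have := LI_integrable hδ hk hd1 hb1 1 0
      simpa using this
    have i2 : Integrable fun t : ℝ => cexp (((k : ℂ) + t * I) ^ 2) / ((k : ℂ) + t * I) := by
      have hd2 : ∀ t : ℝ, DifferentiableAt ℂ (fun z : ℂ => cexp (z ^ 2)) (((0 + k : ℝ) : ℂ) + t * I) :=
        fun t => gauss_diff _
      have hb2 : ∀ t : ℝ, ‖(fun z : ℂ => cexp (z ^ 2)) (((0 + k : ℝ) : ℂ) + t * I)‖ ≤
          Real.exp (k ^ 2 + 1 / 4) * Real.exp (-1 * |t|) := by
        intro t
        rw [zero_add]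
        exact gauss_bound k t
      have := LI_integrable one_pos hk hd2 hb2 1 0
      simpa using this
    rw [← integral_const_mul, ← integral_sub i1 (i2.const_mul _)]
    congr 1
    funext t
    have hne : (((p + k : ℝ) : ℂ) + t * I) ≠ p := by
      intro h0
      have := congrArg Complex.re h0
      simp at this
      exact hk this
    rw [hqne _ hne, hF]
    simp only
    have e1 : (((p + k : ℝ) : ℂ) + t * I) - p = (k : ℂ) + t * I := by push_cast; ring
    rw [e1]
    ring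
  have s1 := hsplit h hh.ne' (by rw [abs_of_pos hh])
  have s2 := hsplit (-h) (neg_ne_zero.2 hh.ne') (by rw [abs_neg, abs_of_pos hh])
  rw [gauss_line hh] at s1
  rw [gauss_line_neg hh] at s2
  rw [show p + -h = p - h by ring] at s2
  rw [hsh, s1] at s2
  linear_combination s2

end Pool.Agent.H475R3.PO
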