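import Mathlib
import Pool.Agent.H475R3.PO.MB1
import Pool.Agent.H180R3.PO.Stmts

/-!
# Mellin-Barnes formula on the line `Re s = -η` (TaskMB of the POLEORDER project)
-/

set_option autoImplicit false

namespace Pool.Agent.H475R3.PO

open MeasureTheory Set Filter Topology Complex
open Pool.Agent.H336R4.PF Pool.Agent.H180R3.PO

lemma GGp {G : ℂ → ℂ} (hPG : PolyGrowth G) : ∃ C A : ℝ, 0 ≤ C ∧ 0 ≤ A ∧
    ∀ z w : ℂ, |z.re| ≤ 2 → 1 / 2 ≤ w.re → w.re ≤ 3 / 2 → w.im = z.im →
      ‖G z‖ * ‖Gamma w‖ ≤ C * (1 + |z.im|) ^ A * Real.exp (-(Real.pi / 2) * |z.im|) := by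
  obtain ⟨C, A, hC, hA, h⟩ := hPG 2
  refine ⟨6 * C, A + 1, by positivity, by linarith, fun z w h1 h2 h3 h4 => ?_⟩
  have h5 := h z h1
  have h6 := Gstrip (w := w.re) (y := w.im) h2 h3
  have e1 : ((w.re : ℂ) + w.im * I) = w := Complex.re_add_im w
  rw [e1, h4] at h6
  have h7 : 0 < 1 + |z.im| := by linarith [abs_nonneg z.im]
  calc ‖G z‖ * ‖Gamma w‖ ≤ (C * (1 + |z.im|) ^ A) *
        (6 * (1 + |z.im|) * Real.exp (-(Real.pi / 2) * |z.im|)) := by gcongr
    _ = 6 * C * ((1 + |z.im|) ^ A * (1 + |z.im|)) * Real.exp (-(Real.pi / 2) * |z.im|) := by ring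
    _ = _ := by rw [Real.rpow_add h7, Real.rpow_one]

lemma GGd {G : ℂ → ℂ} (hPG : PolyGrowth G) : ∃ C : ℝ, 0 ≤ C ∧
    ∀ z w : ℂ, |z.re| ≤ 2 → 1 / 2 ≤ w.re → w.re ≤ 3 / 2 → w.im = z.im →
      ‖G z‖ * ‖Gamma w‖ ≤ C * Real.exp (-(Real.pi / 4) * |z.im|) := by
  obtain ⟨C, A, hC, hA, h⟩ := GGp hPG
  obtain ⟨D, hD0, hD⟩ := polyexp hA (δ := Real.pi / 4) (by have := Real.pi_pos; positivity)
  refine ⟨C * D, by positivity, fun z w h1 h2 h3 h4 => (h z w h1 h2 h3 h4).trans ?_⟩
  have h5 := hD z.im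
  have e1 : -(2 * (Real.pi / 4)) = -(Real.pi / 2) := by ring
  rw [e1] at h5
  rw [mul_assoc, mul_assoc]
  gcongr

/-- bound of `Phi` in the strip `-1 < Re s < 0` -/
lemma Phi_bound {G : ℂ → ℂ} (hPG : PolyGrowth G) {ε : ℝ} (hε : 0 < ε) (hε2 : ε ≤ 1 / 2) :
    ∃ C A : ℝ, 0 ≤ C ∧ 0 ≤ A ∧ ∀ s : ℂ, -1 + ε ≤ s.re → s.re ≤ -ε →
      ‖Phi 1 G s‖ ≤ C * (1 + |s.im|) ^ A * Real.exp (-(Real.pi / 2) * |s.im|) := by
  obtain ⟨C, A, hC, hA, h⟩ := GGp hPG
  refine ⟨C / ε ^ 2, A, by positivity, hA, fun s h1 h2 => ?_⟩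
  have hs1 : 1 ≤ ‖s - 1‖ := by
    have := Complex.abs_re_le_norm (s - 1)
    have h3 := neg_le_abs (s - 1).re
    simp at this h3
    linarith
  have hs0 : ε ≤ ‖s‖ := by
    have := Complex.abs_re_le_norm s
    have h3 := neg_le_abs s.re
    linarith
  have hsp : ε ≤ ‖s + 1‖ := by
    have := Complex.abs_re_le_norm (s + 1)
    have h3 := le_abs_self (s + 1).re
    simp at this h3
    linarith
  have hsne : s ≠ 0 := by
    intro h0; rw [h0, norm_zero] at hs0; linarith
  have hspne : s + 1 ≠ 0 := by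
    intro h0; rw [h0, norm_zero] at hsp; linarith
  set X : ℝ := (1 + |s.im|) ^ A * Real.exp (-(Real.pi / 2) * |s.im|) with hX
  have hX0 : 0 ≤ X := by
    have : 0 ≤ 1 + |s.im| := by linarith [abs_nonneg s.im]
    positivity
  have hgoal : ‖G s‖ * ‖Gamma s‖ ≤ C / ε ^ 2 * X := by
    rcases le_total (-(1 / 2)) s.re with h3 | h3
    · have h4 := h s (s + 1) (by rw [abs_le]; constructor <;> linarith) (by simp; linarith)
        (by simp; linarith) (by simp)
      rw [Complex.Gamma_add_one s hsne, norm_mul] at h4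
      rw [mul_assoc] at h4
      have h5 : ‖G s‖ * ‖Gamma s‖ * ε ≤ C * X := by
        calc ‖G s‖ * ‖Gamma s‖ * ε ≤ ‖G s‖ * ‖Gamma s‖ * ‖s‖ := by gcongr
          _ = ‖G s‖ * (‖s‖ * ‖Gamma s‖) := by ring
          _ ≤ _ := h4
      have h6 : ‖G s‖ * ‖Gamma s‖ ≤ C * X / ε := by rwa [le_div_iff₀ hε]
      refine h6.trans ?_
      rw [div_mul_eq_mul_div]
      apply div_le_div_of_nonneg_left (by positivity) (by positivity)
      nlinarith
    · have h4 := h s (s + 1 + 1) (by rw [abs_le]; constructor <;> linarith) (by simp; linarith)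
        (by simp; linarith) (by simp)
      rw [Complex.Gamma_add_one (s + 1) hspne, Complex.Gamma_add_one s hsne, norm_mul, norm_mul,
        mul_assoc C] at h4
      have h5 : ‖G s‖ * ‖Gamma s‖ * ε ^ 2 ≤ C * X := by
        calc ‖G s‖ * ‖Gamma s‖ * ε ^ 2 = ‖G s‖ * (ε * (ε * ‖Gamma s‖)) := by ring
          _ ≤ ‖G s‖ * (‖s + 1‖ * (‖s‖ * ‖Gamma s‖)) := by gcongr
          _ ≤ _ := h4
      have h6 : ‖G s‖ * ‖Gamma s‖ ≤ C * X / ε ^ 2 := by rwa [le_div_iff₀ (by positivity)]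
      refine h6.trans (le_of_eq (by ring))
  unfold Phi
  rw [pow_one, norm_mul, norm_div, mul_assoc]
  calc ‖G s‖ / ‖s - 1‖ * ‖Gamma s‖ ≤ ‖G s‖ * ‖Gamma s‖ := by
        gcongr
        exact div_le_self (norm_nonneg _) hs1
    _ ≤ _ := hgoal

lemma Phi_diff {G : ℂ → ℂ} (hG : Differentiable ℂ G) {s : ℂ} (h1 : s ≠ 1)
    (h2 : ∀ n : ℕ, s ≠ -n) : DifferentiableAt ℂ (Phi 1 G) s := by
  unfold Phi
  apply DifferentiableAt.mul
  · apply DifferentiableAt.div (hG s) (by fun_prop)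
    rw [pow_one]
    exact sub_ne_zero.2 h1
  · exact Complex.differentiableAt_Gamma s h2

lemma ne_of_strip {s : ℂ} (h1 : -1 < s.re) (h2 : s.re < 0) : s ≠ 1 ∧ ∀ n : ℕ, s ≠ -n := by
  refine ⟨fun h => ?_, fun n h => ?_⟩
  · rw [h] at h2; simp at h2; linarith
  · have h3 := congrArg Complex.re h
    simp at h3
    rcases Nat.eq_zero_or_pos n with h0 | h0
    · subst h0; simp at h3; linarith
    · have : (1 : ℝ) ≤ n := by exact_mod_cast h0
      linarith

/-- first crossing -/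
lemma cross1 {G : ℂ → ℂ} (hG : Differentiable ℂ G) (hPG : PolyGrowth G) (u : ℝ) :
    JJ 1 G (3 / 2) u - JJ 1 G (1 / 2) u = 2 * Real.pi * (G 1 * cexp (-u)) := by
  obtain ⟨C, hC0, hC⟩ := GGd hPG
  have h := residue (f := fun s => G s * Gamma s * cexp (-s * u)) (p := 1) (h := 1 / 2)
    (C := C * Real.exp (2 * |u|)) (δ := Real.pi / 4) (by have := Real.pi_pos; positivity)
    (by norm_num)
    (fun z h1 h2 => by
      apply DifferentiableAt.mul
      · apply DifferentiableAt.mul (hG z)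
        apply Complex.differentiableAt_Gamma
        intro n h
        have h3 := congrArg Complex.re h
        simp at h3
        have h4 : (0:ℝ) ≤ n := Nat.cast_nonneg n
        linarith
      · fun_prop)
    (fun z h1 h2 => by
      rw [norm_mul, norm_mul]
      have e1 : ‖cexp (-z * u)‖ ≤ Real.exp (2 * |u|) := by
        rw [Complex.norm_exp]
        apply Real.exp_le_exp.2
        have : (-z * u : ℂ).re = -z.re * u := by simp
        rw [this]
        calc -z.re * u ≤ |(-z.re) * u| := le_abs_self _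
          _ = |z.re| * |u| := by rw [abs_mul, abs_neg]
          _ ≤ 2 * |u| := by
            gcongr
            rw [abs_le]; constructor <;> linarith
      have h3 := hC z z (by rw [abs_le]; constructor <;> linarith) (by linarith) (by linarith) rfl
      calc ‖G z‖ * ‖Gamma z‖ * ‖cexp (-z * u)‖ ≤ (C * Real.exp (-(Real.pi / 4) * |z.im|)) *
            Real.exp (2 * |u|) := by gcongr
        _ = _ := by ring)
  have e1 : ∀ t : ℝ, (fun s => G s * Gamma s * cexp (-s * u)) (((1 + 1 / 2 : ℝ) : ℂ) + t * I) /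
      (((1 / 2 : ℝ) : ℂ) + t * I) =
      Phi 1 G (((3 / 2 : ℝ) : ℂ) + t * I) * cexp (-(((3 / 2 : ℝ) : ℂ) + t * I) * u) := by
    intro t
    unfold Phi
    have e2 : ((1 + 1 / 2 : ℝ) : ℂ) = ((3 / 2 : ℝ) : ℂ) := by norm_num
    have e3 : (((1 / 2 : ℝ) : ℂ) + t * I) = (((3 / 2 : ℝ) : ℂ) + t * I) - 1 := by
      push_cast; ring
    simp only [e2, e3, pow_one]
    ring
  have e2 : ∀ t : ℝ, (fun s => G s * Gamma s * cexp (-s * u)) (((1 - 1 / 2 : ℝ) : ℂ) + t * I) /
      (((-(1 / 2) : ℝ) : ℂ) + t * I) =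
      Phi 1 G (((1 / 2 : ℝ) : ℂ) + t * I) * cexp (-(((1 / 2 : ℝ) : ℂ) + t * I) * u) := by
    intro t
    unfold Phi
    have e2 : ((1 - 1 / 2 : ℝ) : ℂ) = ((1 / 2 : ℝ) : ℂ) := by norm_num
    have e3 : (((-(1 / 2) : ℝ) : ℂ) + t * I) = (((1 / 2 : ℝ) : ℂ) + t * I) - 1 := by
      push_cast; ring
    simp only [e2, e3, pow_one]
    ring
  simp only [e1, e2] at h
  have h5 : JJ 1 G (3 / 2) u - JJ 1 G (1 / 2) u = 2 * Real.pi * (G ((1 : ℝ) : ℂ) *
      Gamma ((1 : ℝ) : ℂ) * cexp (-((1 : ℝ) : ℂ) * u)) := h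
  rw [h5]
  simp

/-- second crossing -/
lemma cross0 {G : ℂ → ℂ} (hG : Differentiable ℂ G) (hPG : PolyGrowth G) (u : ℝ) :
    JJ 1 G (1 / 2) u - JJ 1 G (-(1 / 2)) u = 2 * Real.pi * (-G 0) := by
  obtain ⟨C, hC0, hC⟩ := GGd hPG
  have h := residue (f := fun s => G s / (s - 1) * Gamma (s + 1) * cexp (-s * u)) (p := 0)
    (h := 1 / 2)
    (C := 2 * C * Real.exp (2 * |u|)) (δ := Real.pi / 4) (by have := Real.pi_pos; positivity)
    (by norm_num)
    (fun z h1 h2 => by
      have hne : z - 1 ≠ 0 := by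
        intro h
        have h3 := congrArg Complex.re h
        simp at h3
        linarith
      apply DifferentiableAt.mul
      · apply DifferentiableAt.mul
        · exact (hG z).div (by fun_prop) hne
        · apply DifferentiableAt.comp (g := Complex.Gamma) (f := fun z : ℂ => z + 1)
          · apply Complex.differentiableAt_Gamma
            intro n h
            have h3 := congrArg Complex.re h
            simp at h3
            have h4 : (0:ℝ) ≤ n := Nat.cast_nonneg n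
            linarith
          · fun_prop
      · fun_prop)
    (fun z h1 h2 => by
      rw [norm_mul, norm_mul, norm_div]
      have e1 : ‖cexp (-z * u)‖ ≤ Real.exp (2 * |u|) := by
        rw [Complex.norm_exp]
        apply Real.exp_le_exp.2
        have : (-z * u : ℂ).re = -z.re * u := by simp
        rw [this]
        calc -z.re * u ≤ |(-z.re) * u| := le_abs_self _
          _ = |z.re| * |u| := by rw [abs_mul, abs_neg]
          _ ≤ 2 * |u| := by
            gcongr
            rw [abs_le]; constructor <;> linarith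
      have a1 : (1/2 : ℝ) ≤ ‖z - 1‖ := by
        have h3 := Complex.abs_re_le_norm (z - 1)
        have h4 := neg_le_abs (z - 1).re
        simp at h3 h4
        linarith
      have h3 := hC z (z + 1) (by rw [abs_le]; constructor <;> linarith) (by simp; linarith)
        (by simp; linarith) (by simp)
      calc ‖G z‖ / ‖z - 1‖ * ‖Gamma (z + 1)‖ * ‖cexp (-z * u)‖
          ≤ ‖G z‖ / (1 / 2) * ‖Gamma (z + 1)‖ * Real.exp (2 * |u|) := by gcongr
        _ = 2 * (‖G z‖ * ‖Gamma (z + 1)‖) * Real.exp (2 * |u|) := by ring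
        _ ≤ 2 * (C * Real.exp (-(Real.pi / 4) * |z.im|)) * Real.exp (2 * |u|) := by gcongr
        _ = _ := by ring)
  have key : ∀ (c : ℝ), c ≠ 0 → ∀ t : ℝ, G ((c : ℂ) + t * I) / ((c : ℂ) + t * I - 1) *
      Gamma ((c : ℂ) + t * I + 1) * cexp (-((c : ℂ) + t * I) * u) / ((c : ℂ) + t * I) =
      Phi 1 G ((c : ℂ) + t * I) * cexp (-((c : ℂ) + t * I) * u) := by
    intro c hc t
    have hne : (c : ℂ) + t * I ≠ 0 := hI_ne hc
    unfold Phi
    rw [Complex.Gamma_add_one _ hne, pow_one]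
    field_simp
  have e1 : ∀ t : ℝ, (fun s => G s / (s - 1) * Gamma (s + 1) * cexp (-s * u))
      (((0 + 1 / 2 : ℝ) : ℂ) + t * I) / (((1 / 2 : ℝ) : ℂ) + t * I) =
      Phi 1 G (((1 / 2 : ℝ) : ℂ) + t * I) * cexp (-(((1 / 2 : ℝ) : ℂ) + t * I) * u) := by
    intro t
    rw [← key (1 / 2) (by norm_num) t, zero_add]
  have e2 : ∀ t : ℝ, (fun s => G s / (s - 1) * Gamma (s + 1) * cexp (-s * u))
      (((0 - 1 / 2 : ℝ) : ℂ) + t * I) / (((-(1 / 2) : ℝ) : ℂ) + t * I) =
      Phi 1 G (((-(1 / 2) : ℝ) : ℂ) + t * I) * cexp (-(((-(1 / 2) : ℝ) : ℂ) + t * I) * u) := by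
    intro t
    rw [← key (-(1 / 2)) (by norm_num) t, zero_sub]
  simp only [e1, e2] at h
  have h5 : JJ 1 G (1 / 2) u - JJ 1 G (-(1 / 2)) u = 2 * Real.pi * (G ((0 : ℝ) : ℂ) /
      (((0 : ℝ) : ℂ) - 1) * Gamma (((0 : ℝ) : ℂ) + 1) * cexp (-((0 : ℝ) : ℂ) * u)) := h
  rw [h5]
  simp
  ring

/-- shift inside `-1 < Re s < 0` -/
lemma shift_eta {G : ℂ → ℂ} (hG : Differentiable ℂ G) (hPG : PolyGrowth G) {a b : ℝ}
    (ha : -1 < a) (hab : a ≤ b) (hb : b < 0) (u : ℝ) : JJ 1 G a u = JJ 1 G b u := by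
  set ε : ℝ := min (1 / 2) (min (1 + a) (-b)) with hε
  have hε0 : 0 < ε := by
    rw [hε]
    refine lt_min (by norm_num) (lt_min (by linarith) (by linarith))
  obtain ⟨C, A, hC, hA, h⟩ := Phi_bound hPG hε0 (min_le_left _ _)
  obtain ⟨D, hD0, hD⟩ := polyexp hA (δ := Real.pi / 4) (by have := Real.pi_pos; positivity)
  have hεa : ε ≤ 1 + a := (min_le_right _ _).trans (min_le_left _ _)
  have hεb : ε ≤ -b := (min_le_right _ _).trans (min_le_right _ _)
  unfold Pool.Agent.H336R4.PF.JJ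
  refine vshift (g := fun s => Phi 1 G s * cexp (-s * u)) (a := a) (b := b)
    (C := C * D * Real.exp (2 * |u|)) (δ := Real.pi / 4) (by have := Real.pi_pos; positivity) hab
    (fun z h1 h2 => ?_) (fun z h1 h2 => ?_)
  · obtain ⟨n1, n2⟩ := ne_of_strip (s := z) (by linarith) (by linarith)
    exact (Phi_diff hG n1 n2).mul (by fun_prop)
  · rw [norm_mul]
    have e1 : ‖cexp (-z * u)‖ ≤ Real.exp (2 * |u|) := by
      rw [Complex.norm_exp]
      apply Real.exp_le_exp.2
      have : (-z * u : ℂ).re = -z.re * u := by simp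
      rw [this]
      calc -z.re * u ≤ |(-z.re) * u| := le_abs_self _
        _ = |z.re| * |u| := by rw [abs_mul, abs_neg]
        _ ≤ 2 * |u| := by
          gcongr
          rw [abs_le]; constructor <;> linarith
    have h3 := h z (by linarith) (by linarith)
    have h5 := hD z.im
    have e2 : -(2 * (Real.pi / 4)) = -(Real.pi / 2) := by ring
    rw [e2] at h5
    calc ‖Phi 1 G z‖ * ‖cexp (-z * u)‖ ≤ (C * ((1 + |z.im|) ^ A *
          Real.exp (-(Real.pi / 2) * |z.im|))) * Real.exp (2 * |u|) := by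
          rw [← mul_assoc C]
          gcongr
      _ ≤ (C * (D * Real.exp (-(Real.pi / 4) * |z.im|))) * Real.exp (2 * |u|) := by gcongr
      _ = _ := by ring

/-- Mellin inversion on the real axis -/
lemma ff_eq {a : ℕ → ℂ} (ha : Ram a) {G : ℂ → ℂ} (hG : Pool.Agent.H336R4.PF.Cont a 1 G)
    (hPG : PolyGrowth G) (u : ℝ) :
    ff a (Real.exp u) = (1 / (2 * Real.pi) : ℝ) • Pool.Agent.H336R4.PF.JJ 1 G (3/2) u := by
  have hx := Real.exp_pos u
  have hGd := hG.1
  have hre : ∀ y : ℝ, (((3/2 : ℝ) : ℂ) + y * I).re = 3/2 := fun y => by simp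
  have hmel : ∀ y : ℝ, mellin (ff a) (((3/2 : ℝ) : ℂ) + y * I) = Phi 1 G (((3/2 : ℝ) : ℂ) + y * I) := by
    intro y
    rw [mellin_ff ha (by rw [hre])]
    unfold Phi
    rw [hG.2.2 _ (by rw [hre]; norm_num)]
    have hne : (((3/2 : ℝ) : ℂ) + y * I) - 1 ≠ 0 := by
      intro h
      have := congrArg Complex.re h
      simp at this
      norm_num at this
    field_simp
  have hint : VerticalIntegrable (mellin (ff a)) (3/2) := by
    unfold VerticalIntegrable
    obtain ⟨C, hC0, hC⟩ := GGd hPG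
    have h1 : Integrable fun y : ℝ => Phi 1 G (((3/2 : ℝ) : ℂ) + y * I) := by
      apply vint (g := Phi 1 G) (a := 3/2) (b := 3/2) (C := 2 * C) (δ := Real.pi / 4)
        (by have := Real.pi_pos; positivity) _ _ le_rfl le_rfl
      · intro z h1 h2
        apply Phi_diff hGd
        · intro h
          rw [h] at h1
          simp at h1
          linarith
        · intro n h
          have h3 := congrArg Complex.re h
          simp at h3
          have h4 : (0:ℝ) ≤ n := Nat.cast_nonneg n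
          linarith
      · intro z h1 h2
        unfold Phi
        rw [norm_mul, norm_div, norm_pow, pow_one]
        have a1 : (1/2 : ℝ) ≤ ‖z - 1‖ := by
          have h3 := Complex.abs_re_le_norm (z - 1)
          have h4 := le_abs_self (z - 1).re
          simp at h3 h4
          linarith
        have a3 := hC z z (by rw [abs_le]; constructor <;> linarith) (by linarith) (by linarith) rfl
        calc ‖G z‖ / ‖z - 1‖ * ‖Complex.Gamma z‖ ≤ ‖G z‖ / (1/2) * ‖Complex.Gamma z‖ := by gcongr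
          _ = 2 * (‖G z‖ * ‖Complex.Gamma z‖) := by ring
          _ ≤ 2 * (C * Real.exp (-(Real.pi / 4) * |z.im|)) := by gcongr
          _ = _ := by ring
    refine h1.congr (Eventually.of_forall fun y => ?_)
    exact (hmel y).symm
  have h1 := mellinInv_mellin_eq (3/2) (ff a) hx (ff_mellinConvergent ha) hint
    ((ff_continuousOn ha).continuousAt (Ioi_mem_nhds hx))
  rw [← h1]
  unfold mellinInv Pool.Agent.H336R4.PF.JJ
  congr 1
  congr 1
  funext y
  rw [hmel y, smul_eq_mul, mul_comm]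
  congr 1
  rw [Complex.cpow_def_of_ne_zero (by exact_mod_cast hx.ne'), ← Complex.ofReal_log hx.le,
    Real.log_exp]
  congr 1
  push_cast
  ring

/-- the formula for real arguments -/
lemma real_formula {a : ℕ → ℂ} (ha : Ram a) {G : ℂ → ℂ} (hG : Pool.Agent.H336R4.PF.Cont a 1 G)
    (hPG : PolyGrowth G) {η : ℝ} (hη0 : 0 < η) (hη1 : η < 1) (u : ℝ) :
    fz a (cexp u) = G 1 * cexp (-u) - G 0 +
      (1 / (2 * Real.pi) : ℂ) * Pool.Agent.H336R4.PF.JJ 1 G (-η) u := by
  have h1 := ff_eq ha hG hPG u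
  have h2 := cross1 hG.1 hPG u
  have h3 := cross0 hG.1 hPG u
  have h4 : Pool.Agent.H336R4.PF.JJ 1 G (-(1 / 2)) u = Pool.Agent.H336R4.PF.JJ 1 G (-η) u := by
    rcases le_total (-η) (-(1 / 2)) with h | h
    · exact (shift_eta hG.1 hPG (by linarith) h (by norm_num) u).symm
    · exact shift_eta hG.1 hPG (by norm_num) h (by linarith) u
  have h5 : ff a (Real.exp u) = fz a (cexp u) := by
    unfold ff fz bb
    push_cast
    rfl
  rw [← h5, h1, ← h4]
  have h6 : Pool.Agent.H336R4.PF.JJ 1 G (3 / 2) u = 2 * Real.pi * (G 1 * cexp (-u)) +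
      2 * Real.pi * (-G 0) + Pool.Agent.H336R4.PF.JJ 1 G (-(1 / 2)) u := by
    linear_combination h2 + h3
  rw [h6, Complex.real_smul]
  have hpi : (Real.pi : ℂ) ≠ 0 := by exact_mod_cast Real.pi_ne_zero
  push_cast
  field_simp
  ring

/-- the exponential series is analytic in the right half plane -/
lemma fz_diff {a : ℕ → ℂ} (ha : Ram a) {z : ℂ} (hz : 0 < z.re) : DifferentiableAt ℂ (fz a) z := by
  have hU : IsOpen {w : ℂ | z.re / 2 < w.re} := isOpen_lt continuous_const Complex.continuous_re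
  have hzU : z ∈ {w : ℂ | z.re / 2 < w.re} := by
    change z.re / 2 < z.re
    linarith
  have h1 : DifferentiableOn ℂ (fz a) {w : ℂ | z.re / 2 < w.re} := by
    unfold fz
    apply differentiableOn_tsum_of_summable_norm (bb_summable ha (x := z.re / 2) (by linarith))
    · intro n
      fun_prop
    · exact hU
    · intro n w hw
      have hw' : z.re / 2 < w.re := hw
      rw [norm_mul, Complex.norm_exp]
      have e1 : (-(n * w) : ℂ).re = -(n * w.re) := by simp
      rw [e1]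
      unfold bb
      gcongr
  exact h1.differentiableAt (hU.mem_nhds hzU)

/-- the strip -/
def SS0 : Set ℂ := {v : ℂ | |v.im| < Real.pi / 2}

lemma SS0_open : IsOpen SS0 := isOpen_lt (continuous_abs.comp Complex.continuous_im) continuous_const

lemma SS0_preconn : IsPreconnected SS0 := by
  apply Convex.isPreconnected
  have : SS0 = Complex.imLm ⁻¹' (Ioo (-(Real.pi / 2)) (Real.pi / 2)) := by
    ext v
    change |v.im| < Real.pi / 2 ↔ v.im ∈ Ioo (-(Real.pi / 2)) (Real.pi / 2)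
    rw [abs_lt]
    rfl
  rw [this]
  exact (convex_Ioo _ _).linear_preimage Complex.imLm

/-- the shifted integral, as a function of `v = log z` -/
noncomputable def WW0 (G : ℂ → ℂ) (η : ℝ) (v : ℂ) : ℂ :=
  ∫ t : ℝ, Phi 1 G (((-η : ℝ) : ℂ) + t * I) * cexp (-(((-η : ℝ) : ℂ) + t * I) * v)

lemma W_norm (η t : ℝ) (v : ℂ) : ‖cexp (-(((-η : ℝ) : ℂ) + t * I) * v)‖ =
    Real.exp (η * v.re + t * v.im) := by
  rw [Complex.norm_exp]
  congr 1
  simp

lemma W_cont {G : ℂ → ℂ} (hG : Differentiable ℂ G) {η : ℝ} (hη0 : 0 < η) (hη1 : η < 1) :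
    Continuous (fun t : ℝ => Phi 1 G (((-η : ℝ) : ℂ) + t * I)) := by
  rw [continuous_iff_continuousAt]
  intro t
  have h1 : ContinuousAt (Phi 1 G) (((-η : ℝ) : ℂ) + t * I) := by
    obtain ⟨n1, n2⟩ := ne_of_strip (s := ((-η : ℝ) : ℂ) + t * I) (by rw [vline_re]; linarith)
      (by rw [vline_re]; linarith)
    exact (Phi_diff hG n1 n2).continuousAt
  have h2 : ContinuousAt (fun t : ℝ => ((-η : ℝ) : ℂ) + t * I) t := by fun_prop
  exact ContinuousAt.comp (g := Phi 1 G) (f := fun t : ℝ => ((-η : ℝ) : ℂ) + t * I) h1 h2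

/-- uniform exponential bound, with a linear factor -/
lemma W_bound {G : ℂ → ℂ} (hPG : PolyGrowth G) {η : ℝ} (hη0 : 0 < η) (hη1 : η < 1)
    {β : ℝ} (hβ : β < Real.pi / 2) (R : ℝ) :
    ∃ D δ : ℝ, 0 ≤ D ∧ 0 < δ ∧ ∀ (t : ℝ) (v : ℂ), |v.im| ≤ β → |v.re| ≤ R →
      ‖Phi 1 G (((-η : ℝ) : ℂ) + t * I)‖ * ‖cexp (-(((-η : ℝ) : ℂ) + t * I) * v)‖ * (1 + |t|) ≤
        D * Real.exp (-δ * |t|) := by
  set ε : ℝ := min (1 / 2) (min (1 - η) η) with hε
  have hε0 : 0 < ε := lt_min (by norm_num) (lt_min (by linarith) hη0)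
  obtain ⟨C, A, hC, hA, h⟩ := Phi_bound hPG hε0 (min_le_left _ _)
  have hε1 : ε ≤ 1 - η := (min_le_right _ _).trans (min_le_left _ _)
  have hε2 : ε ≤ η := (min_le_right _ _).trans (min_le_right _ _)
  set δ : ℝ := (Real.pi / 2 - β) / 2 with hδ
  have hδ0 : 0 < δ := by rw [hδ]; linarith
  obtain ⟨D, hD0, hD⟩ := polyexp (A := A + 1) (by linarith) hδ0
  refine ⟨C * D * Real.exp |R|, δ, by positivity, hδ0, fun t v hv1 hv2 => ?_⟩
  have h1 := h (((-η : ℝ) : ℂ) + t * I) (by rw [vline_re]; linarith) (by rw [vline_re]; linarith)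
  rw [vline_im] at h1
  rw [W_norm]
  have h2 : Real.exp (η * v.re + t * v.im) ≤ Real.exp |R| * Real.exp (β * |t|) := by
    rw [← Real.exp_add]
    apply Real.exp_le_exp.2
    have h3 : η * v.re ≤ |R| := by
      calc η * v.re ≤ |η * v.re| := le_abs_self _
        _ = η * |v.re| := by rw [abs_mul, abs_of_pos hη0]
        _ ≤ 1 * |R| := mul_le_mul hη1.le (hv2.trans (le_abs_self R)) (abs_nonneg _) zero_le_one
        _ = |R| := one_mul _
    have h4 : t * v.im ≤ β * |t| := by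
      calc t * v.im ≤ |t * v.im| := le_abs_self _
        _ = |t| * |v.im| := abs_mul _ _
        _ ≤ |t| * β := by gcongr
        _ = _ := mul_comm _ _
    linarith
  have ht1 : 0 < 1 + |t| := by linarith [abs_nonneg t]
  have h5 := hD t
  have h6 : Real.exp (-(2 * δ) * |t|) = Real.exp (-(Real.pi / 2) * |t|) * Real.exp (β * |t|) := by
    rw [← Real.exp_add, hδ]; congr 1; ring
  rw [h6, Real.rpow_add ht1, Real.rpow_one] at h5
  calc ‖Phi 1 G (((-η : ℝ) : ℂ) + t * I)‖ * Real.exp (η * v.re + t * v.im) * (1 + |t|)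
      ≤ (C * (1 + |t|) ^ A * Real.exp (-(Real.pi / 2) * |t|)) *
          (Real.exp |R| * Real.exp (β * |t|)) * (1 + |t|) := by gcongr
    _ = C * Real.exp |R| * ((1 + |t|) ^ A * (1 + |t|) *
          (Real.exp (-(Real.pi / 2) * |t|) * Real.exp (β * |t|))) := by ring
    _ ≤ C * Real.exp |R| * (D * Real.exp (-δ * |t|)) := by gcongr
    _ = _ := by ring

lemma W_int {G : ℂ → ℂ} (hG : Differentiable ℂ G) (hPG : PolyGrowth G) {η : ℝ} (hη0 : 0 < η)
    (hη1 : η < 1) {v : ℂ} (hv : v ∈ SS0) :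
    Integrable (fun t : ℝ => Phi 1 G (((-η : ℝ) : ℂ) + t * I) *
      cexp (-(((-η : ℝ) : ℂ) + t * I) * v)) := by
  obtain ⟨D, δ, hD, hδ, h⟩ := W_bound hPG hη0 hη1 (β := |v.im|) hv |v.re|
  refine Integrable.mono' ((integrable_exp_abs hδ).const_mul D)
    (((W_cont hG hη0 hη1).mul (by fun_prop)).aestronglyMeasurable)
    (Eventually.of_forall fun t => ?_)
  rw [norm_mul]
  refine le_trans ?_ (h t v le_rfl le_rfl)
  exact le_mul_of_one_le_right (by positivity) (by linarith [abs_nonneg t])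

lemma W_diff {G : ℂ → ℂ} (hG : Differentiable ℂ G) (hPG : PolyGrowth G) {η : ℝ} (hη0 : 0 < η)
    (hη1 : η < 1) {v : ℂ} (hv : v ∈ SS0) : DifferentiableAt ℂ (WW0 G η) v := by
  have hv' : |v.im| < Real.pi / 2 := hv
  set β : ℝ := (|v.im| + Real.pi / 2) / 2 with hβ
  have hβ1 : β < Real.pi / 2 := by rw [hβ]; linarith
  have hβ2 : |v.im| < β := by rw [hβ]; linarith
  set r : ℝ := β - |v.im| with hr
  have hr0 : 0 < r := by rw [hr]; linarith
  obtain ⟨D, δ, hD, hδ, h⟩ := W_bound hPG hη0 hη1 hβ1 (|v.re| + r)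
  have hmem : ∀ w ∈ Metric.ball v r, |w.im| ≤ β ∧ |w.re| ≤ |v.re| + r := by
    intro w hw
    rw [Metric.mem_ball, dist_eq_norm] at hw
    have h1 := Complex.abs_im_le_norm (w - v)
    have h2 := Complex.abs_re_le_norm (w - v)
    rw [Complex.sub_im] at h1
    rw [Complex.sub_re] at h2
    have h3 := abs_sub_abs_le_abs_sub w.im v.im
    have h4 := abs_sub_abs_le_abs_sub w.re v.re
    constructor
    · rw [hr] at hw; linarith
    · linarith
  have hmeas : ∀ w : ℂ, Continuous (fun t : ℝ => Phi 1 G (((-η : ℝ) : ℂ) + t * I) *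
      cexp (-(((-η : ℝ) : ℂ) + t * I) * w)) := fun w => (W_cont hG hη0 hη1).mul (by fun_prop)
  have key := hasDerivAt_integral_of_dominated_loc_of_deriv_le (μ := volume) (𝕜 := ℂ)
    (F := fun (w : ℂ) (t : ℝ) => Phi 1 G (((-η : ℝ) : ℂ) + t * I) *
      cexp (-(((-η : ℝ) : ℂ) + t * I) * w))
    (F' := fun (w : ℂ) (t : ℝ) => Phi 1 G (((-η : ℝ) : ℂ) + t * I) *
      (cexp (-(((-η : ℝ) : ℂ) + t * I) * w) * (-(((-η : ℝ) : ℂ) + t * I))))
    (x₀ := v) (s := Metric.ball v r)
    (bound := fun t => D * Real.exp (-δ * |t|))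
    (Metric.ball_mem_nhds v hr0)
    (Eventually.of_forall fun w => (hmeas w).aestronglyMeasurable)
    (W_int hG hPG hη0 hη1 hv)
    (((W_cont hG hη0 hη1).mul (by fun_prop)).aestronglyMeasurable)
    (Eventually.of_forall fun t w hw => ?_)
    ((integrable_exp_abs hδ).const_mul _)
    (Eventually.of_forall fun t w hw => ?_)
  · exact key.2.differentiableAt
  · obtain ⟨h1, h2⟩ := hmem w hw
    rw [norm_mul, norm_mul, norm_neg]
    refine le_trans ?_ (h t w h1 h2)
    rw [mul_assoc]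
    gcongr
    refine (norm_add_le _ _).trans ?_
    rw [norm_mul, norm_I, mul_one, Complex.norm_real, Complex.norm_real, norm_neg,
      Real.norm_of_nonneg hη0.le, Real.norm_eq_abs]
    linarith
  · have h0 : HasDerivAt (fun x : ℂ => -(((-η : ℝ) : ℂ) + t * I) * x)
        (-(((-η : ℝ) : ℂ) + t * I)) w := by
      simpa using (hasDerivAt_id w).const_mul (-(((-η : ℝ) : ℂ) + t * I))
    exact h0.cexp.const_mul _

theorem taskMB : TaskMB := by
  intro a ha G hG hPG η hη0 hη1 z hz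
  have hz0 : z ≠ 0 := by
    intro h; rw [h] at hz; simp at hz
  set v : ℂ := Complex.log z with hv
  have hvS : v ∈ SS0 := by
    change |v.im| < Real.pi / 2
    rw [hv, Complex.log_im]
    exact Complex.abs_arg_lt_pi_div_two_iff.2 (Or.inl hz)
  have hzv : cexp v = z := Complex.exp_log hz0
  -- the two analytic functions
  have hana1 : AnalyticOnNhd ℂ (fun w => fz a (cexp w)) SS0 := by
    apply DifferentiableOn.analyticOnNhd _ SS0_open
    intro w hw
    have hw' : |w.im| < Real.pi / 2 := hw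
    apply DifferentiableAt.differentiableWithinAt
    apply DifferentiableAt.comp (g := fz a) (f := cexp)
    · apply fz_diff ha
      rw [Complex.exp_re]
      have := Real.cos_pos_of_mem_Ioo (x := w.im) (abs_lt.1 hw')
      positivity
    · fun_prop
  have hana2 : AnalyticOnNhd ℂ (fun w => G 1 * cexp (-w) - G 0 +
      (1 / (2 * Real.pi) : ℂ) * WW0 G η w) SS0 := by
    apply DifferentiableOn.analyticOnNhd _ SS0_open
    intro w hw
    apply DifferentiableAt.differentiableWithinAt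
    exact ((by fun_prop : DifferentiableAt ℂ (fun w => G 1 * cexp (-w) - G 0) w)).add
      ((W_diff hG.1 hPG hη0 hη1 hw).const_mul _)
  have hreal : ∀ u : ℝ, fz a (cexp (u : ℂ)) = G 1 * cexp (-(u : ℂ)) - G 0 +
      (1 / (2 * Real.pi) : ℂ) * WW0 G η (u : ℂ) := fun u => real_formula ha hG hPG hη0 hη1 u
  have hfreq : ∃ᶠ w in 𝓝[≠] (0 : ℂ), (fun w => fz a (cexp w)) w =
      (fun w => G 1 * cexp (-w) - G 0 + (1 / (2 * Real.pi) : ℂ) * WW0 G η w) w := by
    have h1 : Tendsto (fun n : ℕ => (((1 / ((n : ℝ) + 1) : ℝ)) : ℂ)) atTop (𝓝[≠] 0) := by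
      refine tendsto_nhdsWithin_iff.2 ⟨?_, Eventually.of_forall fun n => ?_⟩
      · have := tendsto_one_div_add_atTop_nhds_zero_nat (𝕜 := ℝ)
        have h2 := (Complex.continuous_ofReal.tendsto 0).comp this
        rw [Complex.ofReal_zero] at h2
        exact h2
      · have h3 : (1 / ((n : ℝ) + 1) : ℝ) ≠ 0 := by positivity
        change (((1 / ((n : ℝ) + 1) : ℝ)) : ℂ) ≠ 0
        exact Complex.ofReal_ne_zero.2 h3
    refine h1.frequently (Eventually.of_forall fun n => ?_).frequently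
    exact hreal _
  have h0S : (0 : ℂ) ∈ SS0 := by
    change |(0 : ℂ).im| < Real.pi / 2
    have := Real.pi_pos
    simp
    exact this
  have heq := hana1.eqOn_of_preconnected_of_frequently_eq hana2 SS0_preconn h0S hfreq hvS
  simp only at heq
  have hfun : ∀ t : ℝ, Phi 1 G (((-η : ℝ) : ℂ) + t * I) * cexp (-(((-η : ℝ) : ℂ) + t * I) * v) =
      G (-η + t * I) / (-η + t * I - 1) * Gamma (-η + t * I) *
        cexp (-(-η + t * I) * Complex.log z) := by
    intro t
    unfold Phi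
    rw [pow_one]
    push_cast
    rfl
  constructor
  · have := W_int hG.1 hPG hη0 hη1 hvS
    simp only [hfun] at this
    exact this
  · have h5 : WW0 G η v = ∫ t : ℝ, G (-η + t * I) / (-η + t * I - 1) * Gamma (-η + t * I) *
        cexp (-(-η + t * I) * Complex.log z) := by
      unfold WW0
      simp only [hfun]
    rw [← h5, div_eq_mul_inv (G 1) z, ← hzv, heq, Complex.exp_neg]

end Pool.Agent.H475R3.PO
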