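import Mathlib
import Pool.Agent.H401R2.Stir

/-!
# Stirling's formula on vertical lines, with relative error `O(1/t)`
-/

set_option autoImplicit false

namespace Pool.Agent.H475R3.PO

open Complex Filter Topology Asymptotics

/-- `f = g (1 + O(1/t))` as `t → ∞`. -/
def Rel (f g : ℝ → ℂ) : Prop :=
  ∃ e : ℝ → ℂ, e =O[atTop] (fun t : ℝ => t⁻¹) ∧ ∀ᶠ t in atTop, f t = g t * (1 + e t)

lemma inv_mul_O : (fun t : ℝ => t⁻¹ * t⁻¹) =O[atTop] (fun t : ℝ => t⁻¹) := by
  refine IsBigO.of_bound 1 ?_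
  filter_upwards [eventually_ge_atTop (1 : ℝ)] with t ht
  have h0 : 0 < t := by linarith
  rw [Real.norm_of_nonneg (by positivity), Real.norm_of_nonneg (by positivity), one_mul]
  have : t⁻¹ ≤ 1 := inv_le_one_of_one_le₀ ht
  have h1 : 0 < t⁻¹ := inv_pos.2 h0
  nlinarith

lemma tendsto_of_O {e : ℝ → ℂ} (h : e =O[atTop] (fun t : ℝ => t⁻¹)) :
    Tendsto e atTop (𝓝 0) :=
  h.trans_tendsto tendsto_inv_atTop_zero

lemma Rel.refl (f : ℝ → ℂ) : Rel f f :=
  ⟨fun _ => 0, isBigO_zero _ _, Eventually.of_forall fun t => by simp⟩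

lemma Rel.of_eventuallyEq {f g : ℝ → ℂ} (h : ∀ᶠ t in atTop, f t = g t) : Rel f g :=
  ⟨fun _ => 0, isBigO_zero _ _, h.mono fun t ht => by simp [ht]⟩

lemma Rel.mul {f g f' g' : ℝ → ℂ} (h : Rel f g) (h' : Rel f' g') :
    Rel (fun t => f t * f' t) (fun t => g t * g' t) := by
  obtain ⟨e, he, hf⟩ := h
  obtain ⟨e', he', hf'⟩ := h'
  refine ⟨fun t => e t + e' t + e t * e' t, (he.add he').add ((he.mul he').trans inv_mul_O), ?_⟩
  filter_upwards [hf, hf'] with t h1 h2
  rw [h1, h2]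
  ring

lemma Rel.trans {f g k : ℝ → ℂ} (h : Rel f g) (h' : Rel g k) : Rel f k := by
  obtain ⟨e, he, hf⟩ := h
  obtain ⟨e', he', hf'⟩ := h'
  refine ⟨fun t => e t + e' t + e t * e' t, (he.add he').add ((he.mul he').trans inv_mul_O), ?_⟩
  filter_upwards [hf, hf'] with t h1 h2
  rw [h1, h2]
  ring

lemma Rel.inv {f g : ℝ → ℂ} (h : Rel f g) : Rel (fun t => (f t)⁻¹) (fun t => (g t)⁻¹) := by
  obtain ⟨e, he, hf⟩ := h
  have ht := tendsto_of_O he
  have hsmall : ∀ᶠ t in atTop, ‖e t‖ < 1 / 2 := by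
    have := ht.norm
    rw [norm_zero] at this
    exact this.eventually (gt_mem_nhds (by norm_num))
  refine ⟨fun t => (1 + e t)⁻¹ - 1, ?_, ?_⟩
  · have : (fun t => (1 + e t)⁻¹ - 1) =O[atTop] e := by
      refine IsBigO.of_bound 2 ?_
      filter_upwards [hsmall] with t h1
      have h2 : 1 / 2 ≤ ‖1 + e t‖ := by
        have h3 := norm_sub_le_norm_add (1 : ℂ) (e t)
        rw [norm_one] at h3
        linarith
      have h3 : 1 + e t ≠ 0 := by
        intro h4
        rw [h4, norm_zero] at h2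
        linarith
      have h4 : (1 + e t)⁻¹ - 1 = -e t / (1 + e t) := by field_simp; ring
      rw [h4, norm_div, norm_neg, div_le_iff₀ (by linarith)]
      nlinarith [norm_nonneg (e t)]
    exact this.trans he
  · filter_upwards [hf] with t h1
    rw [h1, mul_inv]
    ring

lemma Rel.div {f g f' g' : ℝ → ℂ} (h : Rel f g) (h' : Rel f' g') :
    Rel (fun t => f t / f' t) (fun t => g t / g' t) := by
  simpa only [div_eq_mul_inv] using h.mul h'.inv

lemma Rel.conj {f g : ℝ → ℂ} (h : Rel f g) :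
    Rel (fun t => starRingEnd ℂ (f t)) (fun t => starRingEnd ℂ (g t)) := by
  obtain ⟨e, he, hf⟩ := h
  refine ⟨fun t => starRingEnd ℂ (e t), ?_, ?_⟩
  · refine (IsBigO.of_bound 1 ?_).trans he
    filter_upwards with t
    simp
  · filter_upwards [hf] with t h1
    rw [h1]
    simp

lemma Rel.prod {ι : Type*} (s : Finset ι) {f g : ι → ℝ → ℂ} (h : ∀ i ∈ s, Rel (f i) (g i)) :
    Rel (fun t => ∏ i ∈ s, f i t) (fun t => ∏ i ∈ s, g i t) := by
  classical
  induction s using Finset.induction_on with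
  | empty => simpa using Rel.refl (fun _ => 1)
  | insert a s ha ih =>
    simp only [Finset.prod_insert ha]
    exact (h a (Finset.mem_insert_self a s)).mul (ih fun i hi => h i (Finset.mem_insert_of_mem hi))

lemma Rel.exp {h : ℝ → ℂ} (hh : h =O[atTop] (fun t : ℝ => t⁻¹)) :
    Rel (fun t => cexp (h t)) (fun _ => 1) := by
  refine ⟨fun t => cexp (h t) - 1, ?_, Eventually.of_forall fun t => by ring⟩
  have hs : ∀ᶠ t in atTop, ‖h t‖ < 1 := by
    have := (tendsto_of_O hh).norm
    rw [norm_zero] at this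
    exact this.eventually (gt_mem_nhds (by norm_num))
  refine (IsBigO.of_bound 2 ?_).trans hh
  filter_upwards [hs] with t ht
  exact norm_exp_sub_one_le ht.le

/-- the Stirling main term for `Γ(β + iαt)` -/
noncomputable def stM (α : ℝ) (β : ℂ) (t : ℝ) : ℂ :=
  ((√(2 * Real.pi) : ℝ) : ℂ) * cexp ((β - 1 / 2) * (Real.log (α * t) + Real.pi / 2 * I)
    - ((Real.pi * α * t / 2 : ℝ) : ℂ) + ((α * t * Real.log (α * t) - α * t : ℝ) : ℂ) * I)

/-- logarithm of `β + iαt` -/
lemma log_line {α : ℝ} (hα : 0 < α) (β : ℂ) :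
    ∃ r : ℝ → ℂ, r =O[atTop] (fun t : ℝ => t⁻¹ * t⁻¹) ∧ ∀ᶠ t : ℝ in atTop,
      log (β + I * ((α * t : ℝ) : ℂ)) = Real.log (α * t) + Real.pi / 2 * I +
        (-I * β / ((α * t : ℝ) : ℂ)) + r t := by
  refine ⟨fun t => log (1 + (-I * β / ((α * t : ℝ) : ℂ))) - (-I * β / ((α * t : ℝ) : ℂ)), ?_, ?_⟩
  · have hx : (fun t : ℝ => (-I * β / ((α * t : ℝ) : ℂ))) =O[atTop] (fun t : ℝ => t⁻¹) := by
      refine IsBigO.of_bound (‖β‖ / α) ?_
      filter_upwards [eventually_gt_atTop (0 : ℝ)] with t ht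
      rw [norm_div, norm_mul, norm_neg, norm_I, one_mul, Complex.norm_real,
        Real.norm_of_nonneg (by positivity), Real.norm_of_nonneg (by positivity)]
      apply le_of_eq
      field_simp
    have hs : ∀ᶠ t : ℝ in atTop, ‖(-I * β / ((α * t : ℝ) : ℂ))‖ < 1 / 2 := by
      have := (tendsto_of_O hx).norm
      rw [norm_zero] at this
      exact this.eventually (gt_mem_nhds (by norm_num))
    refine (IsBigO.of_bound 1 ?_).trans (hx.mul hx)
    filter_upwards [hs] with t ht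
    refine (norm_log_one_add_sub_self_le (by linarith)).trans ?_
    rw [norm_mul, one_mul]
    have h1 : (1 - ‖(-I * β / ((α * t : ℝ) : ℂ))‖)⁻¹ ≤ 2 := by
      rw [inv_le_comm₀ (by linarith) (by norm_num)]
      linarith
    have h2 : 0 ≤ ‖(-I * β / ((α * t : ℝ) : ℂ))‖ ^ 2 := by positivity
    nlinarith
  · filter_upwards [eventually_gt_atTop (0 : ℝ), eventually_gt_atTop (2 * ‖β‖ / α)] with t ht ht2
    have hat : 0 < α * t := by positivity
    have hatc : ((α * t : ℝ) : ℂ) ≠ 0 := by exact_mod_cast hat.ne'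
    set x : ℂ := -I * β / ((α * t : ℝ) : ℂ) with hx
    have hxn : ‖x‖ < 1 / 2 := by
      rw [hx, norm_div, norm_mul, norm_neg, norm_I, one_mul, Complex.norm_real,
        Real.norm_of_nonneg hat.le, div_lt_iff₀ hat]
      rw [div_lt_iff₀ hα] at ht2
      linarith
    have hw : β + I * ((α * t : ℝ) : ℂ) = ((α * t : ℝ) : ℂ) * (I * (1 + x)) := by
      rw [hx]
      field_simp
      ring_nf
      rw [I_sq]
      ring
    have hy : (1 + x) ≠ 0 := by
      intro h
      have h2 : x = -1 := by linear_combination h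
      have : ‖x‖ = 1 := by rw [h2]; simp
      linarith
    have hre : 0 < (1 + x).re := by
      have h3 := Complex.abs_re_le_norm x
      rw [abs_le] at h3
      rw [Complex.add_re, Complex.one_re]
      linarith [h3.1]
    have harg : |(1 + x).arg| < Real.pi / 2 := Complex.abs_arg_lt_pi_div_two_iff.2 (Or.inl hre)
    rw [abs_lt] at harg
    have hlog : log (I * (1 + x)) = Real.pi / 2 * I + log (1 + x) := by
      rw [Complex.log_mul I_ne_zero hy, log_I]
      rw [arg_I]
      have := Real.pi_pos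
      constructor <;> linarith [harg.1, harg.2]
    rw [hw, log_ofReal_mul hat (mul_ne_zero I_ne_zero hy), hlog]
    ring

lemma stM_ne (α : ℝ) (β : ℂ) (t : ℝ) : stM α β t ≠ 0 := by
  unfold stM
  refine mul_ne_zero ?_ (Complex.exp_ne_zero _)
  have : √(2 * Real.pi) ≠ 0 := by positivity
  exact_mod_cast this

/-- Stirling on a vertical line, right half plane -/
lemma gamma_pos {α : ℝ} (hα : 0 < α) {β : ℂ} (hβ : 0 < β.re) :
    Rel (fun t => Gamma (β + I * ((α * t : ℝ) : ℂ))) (stM α β) := by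
  obtain ⟨r, hr, hlog⟩ := log_line hα β
  have hs2 : ((√(2 * Real.pi) : ℝ) : ℂ) ≠ 0 := by
    have : √(2 * Real.pi) ≠ 0 := by positivity
    exact_mod_cast this
  -- first factor
  have hz1 : Rel (fun t : ℝ => Pool.Agent.H401R2.sA (β + I * ((α * t : ℝ) : ℂ)))
      (fun _ => ((√(2 * Real.pi) : ℝ) : ℂ)) := by
    refine ⟨fun t => Pool.Agent.H401R2.sA (β + I * ((α * t : ℝ) : ℂ)) /
      ((√(2 * Real.pi) : ℝ) : ℂ) - 1, ?_, Eventually.of_forall fun t => by field_simp; ring⟩
    refine IsBigO.of_bound (Real.pi / (4 * α)) ?_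
    filter_upwards [eventually_gt_atTop (0 : ℝ), eventually_ge_atTop ((2 + 2 * |β.im|) / α)]
      with t ht ht2
    rw [div_le_iff₀ hα] at ht2
    have him : (β + I * ((α * t : ℝ) : ℂ)).im = β.im + α * t := by simp
    have hre : (β + I * ((α * t : ℝ) : ℂ)).re = β.re := by simp
    have hb := neg_abs_le β.im
    have hlow : α * t / 2 ≤ β.im + α * t := by linarith [abs_nonneg β.im]
    have hst := Pool.Agent.H401R2.stirling (z := β + I * ((α * t : ℝ) : ℂ))
      (by rw [hre]; exact hβ) (by rw [him]; linarith [abs_nonneg β.im])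
    rw [him] at hst
    refine hst.trans ?_
    rw [Real.norm_of_nonneg (by positivity)]
    have hpi := Real.pi_pos
    have hat : 0 < α * t := by positivity
    calc Real.pi / (8 * (β.im + α * t)) ≤ Real.pi / (8 * (α * t / 2)) := by gcongr
      _ = Real.pi / (4 * α) * t⁻¹ := by field_simp; ring
  -- the exponent
  set h : ℝ → ℂ := fun t => (β - 1 / 2) * (-I * β / ((α * t : ℝ) : ℂ)) +
    (β + I * ((α * t : ℝ) : ℂ) - 1 / 2) * r t with hh
  have hx : (fun t : ℝ => (-I * β / ((α * t : ℝ) : ℂ))) =O[atTop] (fun t : ℝ => t⁻¹) := by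
    refine IsBigO.of_bound (‖β‖ / α) ?_
    filter_upwards [eventually_gt_atTop (0 : ℝ)] with t ht
    rw [norm_div, norm_mul, norm_neg, norm_I, one_mul, Complex.norm_real,
      Real.norm_of_nonneg (by positivity), Real.norm_of_nonneg (by positivity)]
    apply le_of_eq
    field_simp
  have hz : (fun t : ℝ => (β + I * ((α * t : ℝ) : ℂ) - 1 / 2)) =O[atTop] (fun t : ℝ => t) := by
    refine IsBigO.of_bound (‖β‖ + α + 1) ?_
    filter_upwards [eventually_ge_atTop (1 : ℝ)] with t ht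
    have ht0 : 0 < t := by linarith
    rw [Real.norm_of_nonneg ht0.le]
    refine (norm_sub_le _ _).trans ?_
    have h1 : ‖(1 / 2 : ℂ)‖ = 1 / 2 := by simp
    have h2 : ‖β + I * ((α * t : ℝ) : ℂ)‖ ≤ ‖β‖ + α * t := by
      refine (norm_add_le _ _).trans ?_
      rw [norm_mul, norm_I, one_mul, Complex.norm_real, Real.norm_of_nonneg (by positivity)]
    rw [h1]
    nlinarith [norm_nonneg β]
  have hhO : h =O[atTop] (fun t : ℝ => t⁻¹) := by
    refine IsBigO.add ?_ ?_
    · exact hx.const_mul_left _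
    · have h3 := hz.mul hr
      refine h3.trans ?_
      refine IsBigO.of_bound 1 ?_
      filter_upwards [eventually_gt_atTop (0 : ℝ)] with t ht
      rw [one_mul]
      apply le_of_eq
      congr 1
      field_simp
  have hfin := (hz1.mul (Rel.exp hhO)).mul (Rel.refl (fun t : ℝ =>
    cexp ((β - 1 / 2) * (Real.log (α * t) + Real.pi / 2 * I)
    - ((Real.pi * α * t / 2 : ℝ) : ℂ) + ((α * t * Real.log (α * t) - α * t : ℝ) : ℂ) * I)))
  refine Rel.trans (Rel.of_eventuallyEq ?_) (hfin.trans (Rel.of_eventuallyEq ?_))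
  · filter_upwards [hlog, eventually_gt_atTop (0 : ℝ)] with t h1 ht
    have hat : 0 < α * t := by positivity
    have hatc : ((α * t : ℝ) : ℂ) ≠ 0 := by exact_mod_cast hat.ne'
    set z : ℂ := β + I * ((α * t : ℝ) : ℂ) with hzdef
    have hG : Gamma z = Pool.Agent.H401R2.sA z * cexp ((z - 1/2) * log z - z) := by
      unfold Pool.Agent.H401R2.sA
      rw [mul_assoc, ← Complex.exp_add, neg_add_cancel, Complex.exp_zero, mul_one]
    rw [hG, mul_assoc, ← Complex.exp_add]
    congr 2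
    rw [h1, hh]
    simp only
    set T : ℂ := ((α * t : ℝ) : ℂ) with hT
    have hI : I * T * (-I * β / T) = β := by
      field_simp
      rw [I_sq]
      ring
    have e1 : ((Real.pi * α * t / 2 : ℝ) : ℂ) = Real.pi * T / 2 := by
      rw [hT]; push_cast; ring
    have e2 : ((α * t * Real.log (α * t) - α * t : ℝ) : ℂ) = T * Real.log (α * t) - T := by
      rw [hT]; push_cast; ring
    rw [e1, e2, hzdef]
    linear_combination hI + (Real.pi * T / 2) * I_sq
  · filter_upwards with t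
    unfold stM
    ring

/-- Stirling on a vertical line -/
theorem gamma_line {α : ℝ} (hα : 0 < α) (β : ℂ) :
    Rel (fun t => Gamma (β + I * ((α * t : ℝ) : ℂ))) (stM α β) := by
  have key : ∀ n : ℕ, ∀ β : ℂ, -(n : ℝ) < β.re →
      Rel (fun t => Gamma (β + I * ((α * t : ℝ) : ℂ))) (stM α β) := by
    intro n
    induction n with
    | zero => intro β hβ; exact gamma_pos hα (by simpa using hβ)
    | succ n ih =>
      intro β hβ
      have h1 := ih (β + 1) (by push_cast at hβ; simp; linarith)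
      -- the linear factor
      have h2 : Rel (fun t : ℝ => β + I * ((α * t : ℝ) : ℂ))
          (fun t : ℝ => cexp (Real.log (α * t) + Real.pi / 2 * I)) := by
        refine ⟨fun t => (-I * β / ((α * t : ℝ) : ℂ)), ?_, ?_⟩
        · refine IsBigO.of_bound (‖β‖ / α) ?_
          filter_upwards [eventually_gt_atTop (0 : ℝ)] with t ht
          rw [norm_div, norm_mul, norm_neg, norm_I, one_mul, Complex.norm_real,
            Real.norm_of_nonneg (by positivity), Real.norm_of_nonneg (by positivity)]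
          apply le_of_eq
          field_simp
        · filter_upwards [eventually_gt_atTop (0 : ℝ)] with t ht
          have hat : 0 < α * t := by positivity
          have hatc : ((α * t : ℝ) : ℂ) ≠ 0 := by exact_mod_cast hat.ne'
          rw [Complex.exp_add, ← Complex.ofReal_exp, Real.exp_log hat,
            show (Real.pi : ℂ) / 2 * I = Real.pi / 2 * I by ring, Complex.exp_pi_div_two_mul_I]
          field_simp
          ring_nf
          rw [I_sq]
          ring
      refine Rel.trans (Rel.of_eventuallyEq ?_) ((h1.div h2).trans (Rel.of_eventuallyEq ?_))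
      · filter_upwards [eventually_gt_atTop (0 : ℝ), eventually_gt_atTop (|β.im| / α)] with t ht ht2
        rw [div_lt_iff₀ hα] at ht2
        have him : (β + I * ((α * t : ℝ) : ℂ)).im = β.im + α * t := by simp
        have hne : (β + I * ((α * t : ℝ) : ℂ)) ≠ 0 := by
          intro h0
          have : (β + I * ((α * t : ℝ) : ℂ)).im = 0 := by rw [h0]; simp
          rw [him] at this
          have := neg_abs_le β.im
          nlinarith
        have h3 : β + 1 + I * ((α * t : ℝ) : ℂ) = (β + I * ((α * t : ℝ) : ℂ)) + 1 := by ring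
        rw [h3, Complex.Gamma_add_one _ hne]
        field_simp
      · filter_upwards with t
        unfold stM
        rw [mul_div_assoc, ← Complex.exp_sub]
        congr 2
        ring
  obtain ⟨n, hn⟩ := exists_nat_gt (-β.re)
  exact key n β (by linarith)

/-- ratio of the two Stirling main terms of one Gamma factor -/
lemma stM_ratio {α : ℝ} (hα : 0 < α) (γ β : ℂ) : ∀ᶠ t : ℝ in atTop,
    starRingEnd ℂ (stM α γ t) / stM α β t =
      cexp ((starRingEnd ℂ γ - β) * Real.log α - (starRingEnd ℂ γ + β - 1) * (Real.pi / 2 * I)) *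
      cexp ((starRingEnd ℂ γ - β) * Real.log t -
        ((2 * (α * t * Real.log t + α * Real.log α * t - α * t) : ℝ) : ℂ) * I) := by
  filter_upwards [eventually_gt_atTop (0 : ℝ)] with t ht
  have hs2 : ((√(2 * Real.pi) : ℝ) : ℂ) ≠ 0 := by
    have : √(2 * Real.pi) ≠ 0 := by positivity
    exact_mod_cast this
  have hlog : Real.log (α * t) = Real.log α + Real.log t := Real.log_mul hα.ne' ht.ne'
  unfold stM
  rw [map_mul, Complex.conj_ofReal, mul_div_mul_left _ _ hs2, ← Complex.exp_conj,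
    ← Complex.exp_sub, ← Complex.exp_add]
  congr 1
  rw [hlog]
  simp only [map_add, map_sub, map_mul, Complex.conj_ofReal, Complex.conj_I, map_div₀, map_one,
    map_ofNat]
  push_cast
  ring

/-- the factor of the asymmetric functional equation `F(s) = X(s) conj F(1 - conj s)` -/
noncomputable def XX (Q : ℝ) (k : ℕ) (lam : Fin k → ℝ) (μ : Fin k → ℂ) (ω : ℂ) (s : ℂ) : ℂ :=
  ω * (Q : ℂ) ^ (1 - 2 * s) * ∏ j, (Gamma ((lam j : ℂ) * (1 - s) + starRingEnd ℂ (μ j)) /
    Gamma ((lam j : ℂ) * s + μ j))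

/-- the exponent `A` of `t^(iA)` -/
noncomputable def stA (k : ℕ) (μ : Fin k → ℂ) : ℝ := -2 * ∑ j, (μ j).im

/-- the linear coefficient of the phase -/
noncomputable def stC (Q : ℝ) (k : ℕ) (lam : Fin k → ℝ) : ℝ :=
  -2 * (∑ j, (lam j * Real.log (lam j) - lam j)) - 1 - 2 * Real.log Q

/-- main term -/
noncomputable def stF (d A c1 η t : ℝ) : ℂ :=
  cexp ((((d - 1) * (1 / 2 + η) * Real.log t - Real.pi * t / 2 : ℝ) : ℂ) +
    ((A * Real.log t - (d - 1) * t * Real.log t + c1 * t : ℝ) : ℂ) * I)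

/-- **Task ST**: `X(s) Γ(s)` on the line `Re s = -η`. -/
theorem taskST (Q : ℝ) (hQ : 0 < Q) (k : ℕ) (lam : Fin k → ℝ) (μ : Fin k → ℂ) (ω : ℂ)
    (hlam : ∀ j, 0 < lam j) (hω : ω ≠ 0) (η : ℝ) :
    ∃ c : ℂ, c ≠ 0 ∧ Rel (fun t : ℝ => XX Q k lam μ ω (-η + I * t) * Gamma (-η + I * t))
      (fun t : ℝ => c * stF (2 * ∑ j, lam j) (stA k μ) (stC Q k lam) η t) := by
  -- Gamma quotients
  have h1 : ∀ j, Rel (fun t : ℝ => Gamma ((lam j : ℂ) * (1 - (-η + I * t)) + starRingEnd ℂ (μ j)) /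
      Gamma ((lam j : ℂ) * (-η + I * t) + μ j))
      (fun t => starRingEnd ℂ (stM (lam j) (lam j * (1 + η) + μ j) t) /
        stM (lam j) (-(lam j * η : ℝ) + μ j) t) := by
    intro j
    have a1 := (gamma_line (hlam j) (lam j * (1 + η) + μ j)).conj
    have a2 := gamma_line (hlam j) (-(lam j * η : ℝ) + μ j)
    refine Rel.trans (Rel.of_eventuallyEq (Eventually.of_forall fun t => ?_)) (a1.div a2)
    rw [← Complex.Gamma_conj]
    congr 2
    · simp only [map_add, map_mul, Complex.conj_ofReal, Complex.conj_I, map_one]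
      push_cast
      ring
    · push_cast
      ring
  have h2 : ∀ j, Rel (fun t : ℝ => Gamma ((lam j : ℂ) * (1 - (-η + I * t)) + starRingEnd ℂ (μ j)) /
      Gamma ((lam j : ℂ) * (-η + I * t) + μ j)) _ := fun j =>
    (h1 j).trans (Rel.of_eventuallyEq (stM_ratio (hlam j) _ _))
  have h3 := Rel.prod Finset.univ (fun j _ => h2 j)
  have h4 := gamma_line (α := 1) one_pos (-(η : ℂ))
  have h5 := ((Rel.refl (fun t : ℝ => ω * (Q : ℂ) ^ (1 - 2 * (-(η : ℂ) + I * t)))).mul h3).mul h4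
  -- the constant
  set c : ℂ := ω * cexp ((1 + 2 * η) * Real.log Q) *
    (∏ j, cexp ((starRingEnd ℂ (lam j * (1 + η) + μ j) - (-(lam j * η : ℝ) + μ j)) * Real.log (lam j)
      - (starRingEnd ℂ (lam j * (1 + η) + μ j) + (-(lam j * η : ℝ) + μ j) - 1) *
        (Real.pi / 2 * I))) *
    (((√(2 * Real.pi) : ℝ) : ℂ) * cexp ((-(η : ℂ) - 1 / 2) * (Real.pi / 2 * I))) with hc
  refine ⟨c, ?_, ?_⟩
  · rw [hc]
    have hs2 : ((√(2 * Real.pi) : ℝ) : ℂ) ≠ 0 := by
      have : √(2 * Real.pi) ≠ 0 := by positivity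
      exact_mod_cast this
    refine mul_ne_zero (mul_ne_zero (mul_ne_zero hω (Complex.exp_ne_zero _)) ?_)
      (mul_ne_zero hs2 (Complex.exp_ne_zero _))
    exact Finset.prod_ne_zero_iff.2 fun j _ => Complex.exp_ne_zero _
  · refine Rel.trans (Rel.of_eventuallyEq (Eventually.of_forall fun t => ?_))
      (h5.trans (Rel.of_eventuallyEq ?_))
    · unfold XX
      congr 2
      push_cast
      ring
    · filter_upwards [eventually_gt_atTop (0 : ℝ)] with t ht
      have hQc : (Q : ℂ) ≠ 0 := by exact_mod_cast hQ.ne'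
      have e1 : (Q : ℂ) ^ (1 - 2 * (-(η : ℂ) + I * t)) =
          cexp ((1 + 2 * η) * Real.log Q) * cexp (-(2 * t * Real.log Q : ℝ) * I) := by
        rw [Complex.cpow_def_of_ne_zero hQc, ← Complex.exp_add, Complex.ofReal_log hQ.le]
        congr 1
        push_cast
        rw [Complex.ofReal_log hQ.le]
        ring
      have e2 : stM 1 (-(η : ℂ)) t = ((√(2 * Real.pi) : ℝ) : ℂ) *
          cexp ((-(η : ℂ) - 1 / 2) * (Real.pi / 2 * I)) *
          cexp ((-(η : ℂ) - 1 / 2) * Real.log t - ((Real.pi * t / 2 : ℝ) : ℂ) +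
            ((t * Real.log t - t : ℝ) : ℂ) * I) := by
        unfold stM
        rw [mul_assoc (((√(2 * Real.pi) : ℝ) : ℂ)), ← Complex.exp_add]
        congr 2
        simp only [one_mul, mul_one]
        ring
      have e4 : ∏ j, cexp ((starRingEnd ℂ (lam j * (1 + η) + μ j) - (-(lam j * η : ℝ) + μ j)) *
            Real.log t - ((2 * (lam j * t * Real.log t + lam j * Real.log (lam j) * t -
              lam j * t) : ℝ) : ℂ) * I) =
          cexp (∑ j, ((starRingEnd ℂ (lam j * (1 + η) + μ j) - (-(lam j * η : ℝ) + μ j)) *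
            Real.log t - ((2 * (lam j * t * Real.log t + lam j * Real.log (lam j) * t -
              lam j * t) : ℝ) : ℂ) * I)) := (Complex.exp_sum _ _).symm
      rw [e1, e2, Finset.prod_mul_distrib, e4]
      have e3 : cexp (-(2 * t * Real.log Q : ℝ) * I) *
          cexp (∑ j, ((starRingEnd ℂ (lam j * (1 + η) + μ j) - (-(lam j * η : ℝ) + μ j)) *
            Real.log t - ((2 * (lam j * t * Real.log t + lam j * Real.log (lam j) * t -
              lam j * t) : ℝ) : ℂ) * I)) *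
          cexp ((-(η : ℂ) - 1 / 2) * Real.log t - ((Real.pi * t / 2 : ℝ) : ℂ) +
            ((t * Real.log t - t : ℝ) : ℂ) * I) =
          stF (2 * ∑ j, lam j) (stA k μ) (stC Q k lam) η t := by
        unfold stF
        rw [← Complex.exp_add, ← Complex.exp_add]
        congr 1
        have f1 : ∀ j, starRingEnd ℂ (lam j * (1 + η) + μ j) - (-(lam j * η : ℝ) + μ j) =
            (lam j : ℂ) * (1 + 2 * η) - 2 * ((μ j).im : ℂ) * I := by
          intro j
          have : starRingEnd ℂ (μ j) = μ j - 2 * ((μ j).im : ℂ) * I := by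
            apply Complex.ext <;> simp
            ring
          simp only [map_add, map_mul, Complex.conj_ofReal, map_one]
          rw [this]
          push_cast
          ring
        simp only [f1]
        rw [Finset.sum_sub_distrib, ← Finset.sum_mul, ← Finset.sum_mul, Finset.sum_sub_distrib,
          ← Finset.sum_mul]
        unfold stA stC
        have f2 : ∑ j, (2 * ((μ j).im : ℂ) * I) = 2 * (∑ j, ((μ j).im : ℂ)) * I := by
          rw [← Finset.sum_mul, ← Finset.mul_sum]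
        have f3 : ∑ j, ((2 * (lam j * t * Real.log t + lam j * Real.log (lam j) * t -
              lam j * t) : ℝ) : ℂ) = 2 * (∑ j, (lam j : ℂ)) * t * Real.log t +
              2 * (∑ j, ((lam j : ℂ) * Real.log (lam j) - lam j)) * t := by
          rw [Finset.mul_sum, Finset.sum_mul, Finset.sum_mul, Finset.mul_sum, Finset.sum_mul,
            ← Finset.sum_add_distrib]
          refine Finset.sum_congr rfl fun j _ => ?_
          push_cast
          ring
        rw [f2, f3]
        push_cast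
        ring
      rw [← e3, hc]
      ring

/-- quantitative form of `Rel` -/
lemma Rel.bound {f g : ℝ → ℂ} (h : Rel f g) (hg : ∀ t, g t ≠ 0) :
    ∃ C T : ℝ, 0 ≤ C ∧ 1 ≤ T ∧ ∀ t : ℝ, T ≤ t → ‖f t / g t - 1‖ ≤ C / t := by
  obtain ⟨e, he, hf⟩ := h
  obtain ⟨C, hC0, hC⟩ := he.exists_pos
  obtain ⟨T, hT⟩ := eventually_atTop.1 (hC.bound.and hf)
  refine ⟨C, max T 1, hC0.le, le_max_right _ _, fun t ht => ?_⟩
  have ht1 : 1 ≤ t := (le_max_right _ _).trans ht
  obtain ⟨h1, h2⟩ := hT t ((le_max_left _ _).trans ht)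
  rw [h2, mul_div_cancel_left₀ _ (hg t), add_sub_cancel_left]
  rw [Real.norm_of_nonneg (by positivity)] at h1
  rw [div_eq_mul_inv]
  exact h1

lemma stF_ne (d A c1 η t : ℝ) : stF d A c1 η t ≠ 0 := Complex.exp_ne_zero _

/-- **STIR** in the form asked by helper180 -/
theorem stir (β : ℂ) : ∃ C T : ℝ, 0 ≤ C ∧ 1 ≤ T ∧ ∀ y : ℝ, T ≤ y →
    ‖Gamma (β + I * y) / (((√(2 * Real.pi) : ℝ) : ℂ) *
      cexp ((I * y + β - 1 / 2) * (Real.log y + I * Real.pi / 2) - I * y)) - 1‖ ≤ C / y := by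
  obtain ⟨C, T, hC, hT, h⟩ := (gamma_line one_pos β).bound (stM_ne 1 β)
  refine ⟨C, T, hC, hT, fun y hy => ?_⟩
  have h1 := h y hy
  have h2 : stM 1 β y = ((√(2 * Real.pi) : ℝ) : ℂ) *
      cexp ((I * y + β - 1 / 2) * (Real.log y + I * Real.pi / 2) - I * y) := by
    unfold stM
    congr 2
    simp only [one_mul, mul_one]
    push_cast
    linear_combination -(Real.pi * y / 2 : ℂ) * I_sq
  rw [h2] at h1
  simpa using h1

/-- quantitative form of `taskST` -/
theorem taskST' (Q : ℝ) (hQ : 0 < Q) (k : ℕ) (lam : Fin k → ℝ) (μ : Fin k → ℂ) (ω : ℂ)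
    (hlam : ∀ j, 0 < lam j) (hω : ω ≠ 0) (η : ℝ) :
    ∃ c : ℂ, c ≠ 0 ∧ ∃ C T : ℝ, 0 ≤ C ∧ 1 ≤ T ∧ ∀ t : ℝ, T ≤ t →
      ‖XX Q k lam μ ω (-η + I * t) * Gamma (-η + I * t) /
        (c * stF (2 * ∑ j, lam j) (stA k μ) (stC Q k lam) η t) - 1‖ ≤ C / t := by
  obtain ⟨c, hc, h⟩ := taskST Q hQ k lam μ ω hlam hω η
  exact ⟨c, hc, h.bound fun t => mul_ne_zero hc (stF_ne _ _ _ _ _)⟩

lemma norm_stF (d A c1 η t : ℝ) : ‖stF d A c1 η t‖ =
    Real.exp ((d - 1) * (1 / 2 + η) * Real.log t - Real.pi * t / 2) := by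
  unfold stF
  rw [Complex.norm_exp]
  congr 1
  simp

lemma norm_stF' (d A c1 η : ℝ) {t : ℝ} (ht : 0 < t) : ‖stF d A c1 η t‖ =
    t ^ ((d - 1) * (1 / 2 + η)) * Real.exp (-(Real.pi * t / 2)) := by
  rw [norm_stF, Real.rpow_def_of_pos ht, ← Real.exp_add]
  congr 1
  ring

lemma XX_conj (Q : ℝ) (hQ : 0 < Q) (k : ℕ) (lam : Fin k → ℝ) (μ : Fin k → ℂ) (ω : ℂ) (s : ℂ) :
    starRingEnd ℂ (XX Q k lam μ ω s) =
      XX Q k lam (fun j => starRingEnd ℂ (μ j)) (starRingEnd ℂ ω) (starRingEnd ℂ s) := by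
  unfold XX
  rw [map_mul, map_mul, map_prod]
  congr 1
  · congr 1
    have hQc : (Q : ℂ) ≠ 0 := by exact_mod_cast hQ.ne'
    rw [Complex.cpow_def_of_ne_zero hQc, Complex.cpow_def_of_ne_zero hQc, ← Complex.exp_conj,
      ← Complex.ofReal_log hQ.le]
    have h2 : starRingEnd ℂ (2 : ℂ) = 2 := by
      rw [show (2 : ℂ) = ((2 : ℝ) : ℂ) by norm_num, Complex.conj_ofReal]
    rw [map_mul, map_sub, map_one, map_mul, h2, Complex.conj_ofReal]
  · refine Finset.prod_congr rfl fun j _ => ?_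
    rw [map_div₀, ← Complex.Gamma_conj, ← Complex.Gamma_conj]
    simp

/-- norm bound for `X(s) Γ(s)` on the line `Re s = -η`, both signs of `t` -/
theorem norm_ST (Q : ℝ) (hQ : 0 < Q) (k : ℕ) (lam : Fin k → ℝ) (μ : Fin k → ℂ) (ω : ℂ)
    (hlam : ∀ j, 0 < lam j) (hω : ω ≠ 0) (η : ℝ) :
    ∃ C T : ℝ, 0 ≤ C ∧ 1 ≤ T ∧ ∀ t : ℝ, T ≤ |t| →
      ‖XX Q k lam μ ω (-η + I * t) * Gamma (-η + I * t)‖ ≤
        C * |t| ^ ((2 * ∑ j, lam j - 1) * (1 / 2 + η)) * Real.exp (-(Real.pi * |t| / 2)) := by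
  have key : ∀ (μ : Fin k → ℂ) (ω : ℂ), ω ≠ 0 → ∃ C T : ℝ, 0 ≤ C ∧ 1 ≤ T ∧ ∀ t : ℝ, T ≤ t →
      ‖XX Q k lam μ ω (-η + I * t) * Gamma (-η + I * t)‖ ≤
        C * t ^ ((2 * ∑ j, lam j - 1) * (1 / 2 + η)) * Real.exp (-(Real.pi * t / 2)) := by
    intro μ ω hω
    obtain ⟨c, hc, C, T, hC, hT, h⟩ := taskST' Q hQ k lam μ ω hlam hω η
    refine ⟨‖c‖ * (1 + C), T, by positivity, hT, fun t ht => ?_⟩
    have ht0 : 0 < t := by linarith
    have h1 := h t ht
    set F := XX Q k lam μ ω (-η + I * t) * Gamma (-η + I * t) with hF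
    set g := c * stF (2 * ∑ j, lam j) (stA k μ) (stC Q k lam) η t with hg
    have hg0 : g ≠ 0 := mul_ne_zero hc (stF_ne _ _ _ _ _)
    have h2 : ‖F / g‖ ≤ 1 + C := by
      have h3 : F / g = 1 + (F / g - 1) := by ring
      rw [h3]
      refine (norm_add_le _ _).trans ?_
      rw [norm_one]
      have : C / t ≤ C := div_le_self hC (by linarith)
      linarith
    rw [norm_div, div_le_iff₀ (norm_pos_iff.2 hg0)] at h2
    refine h2.trans (le_of_eq ?_)
    rw [hg, norm_mul, norm_stF' _ _ _ _ ht0]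
    ring
  obtain ⟨C1, T1, hC1, hT1, h1⟩ := key μ ω hω
  obtain ⟨C2, T2, hC2, hT2, h2⟩ := key (fun j => starRingEnd ℂ (μ j)) (starRingEnd ℂ ω)
    (by simpa using hω)
  refine ⟨max C1 C2, max T1 T2, by positivity, le_trans hT1 (le_max_left _ _), fun t ht => ?_⟩
  rcases le_total 0 t with h0 | h0
  · rw [abs_of_nonneg h0] at ht ⊢
    refine (h1 t ((le_max_left _ _).trans ht)).trans ?_
    gcongr
    exact le_max_left _ _
  · rw [abs_of_nonpos h0] at ht ⊢
    have h3 := h2 (-t) ((le_max_right _ _).trans ht)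
    have h4 : XX Q k lam μ ω (-η + I * t) * Gamma (-η + I * t) = starRingEnd ℂ
        (XX Q k lam (fun j => starRingEnd ℂ (μ j)) (starRingEnd ℂ ω) (-η + I * (-t : ℝ)) *
          Gamma (-η + I * (-t : ℝ))) := by
      rw [map_mul, XX_conj Q hQ, ← Complex.Gamma_conj]
      simp
    rw [h4, Complex.norm_conj]
    refine h3.trans ?_
    have h5 : 0 ≤ -t := by linarith
    gcongr
    exact le_max_right _ _

end Pool.Agent.H475R3.PO
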