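import Mathlib
import Pool.Agent.H180R3.PO.Stmts
import Pool.Agent.H475R3.PO.ST

/-!
# TaskSTIR and TaskST of the POLEORDER project
-/

set_option autoImplicit false

namespace Pool.Agent.H475R3.PO

open Complex Filter Topology Asymptotics
open Pool.Agent.H336R4.PF Pool.Agent.H180R3.PO

theorem taskSTIR : TaskSTIR := by
  intro α
  obtain ⟨C, T, hC, hT, h⟩ := stir α
  refine ⟨C, T, hT, fun y hy => ?_⟩
  have h1 := h y hy
  have e1 : α + (y : ℂ) * I = α + I * y := by ring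
  have e2 : ((y : ℂ) * I + α - 1 / 2) * ((Real.log y : ℂ) + Real.pi / 2 * I) - y * I =
      (I * y + α - 1 / 2) * (Real.log y + I * Real.pi / 2) - I * y := by ring
  rw [e1, e2]
  exact h1

/-- the asymmetric functional equation to the left of `1` -/
theorem fe_XX (hFEX : TaskFEX) {m : ℕ} {G : ℂ → ℂ} (hG : Differentiable ℂ G)
    {Q : ℝ} {k : ℕ} {lam : Fin k → ℝ} {μ : Fin k → ℂ} {ω : ℂ} (hQ : 0 < Q)
    (hFE : FE m G Q k lam μ ω) {s : ℂ} (hs : s.re < 1) :
    G s * s ^ m = XX Q k lam μ ω s *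
      ((-1) ^ m * starRingEnd ℂ (G (1 - starRingEnd ℂ s)) * (s - 1) ^ m) := by
  have h := hFEX m G hG Q k lam μ ω hQ hFE s
  have hQc : (Q : ℂ) ≠ 0 := by exact_mod_cast hQ.ne'
  have hne : ∀ j, Gamma ((lam j : ℂ) * (1 - s) + starRingEnd ℂ (μ j)) ≠ 0 := by
    intro j
    apply Complex.Gamma_ne_zero_of_re_pos
    have h1 := hFE.1 j
    have h2 := hFE.2.1 j
    have : ((lam j : ℂ) * (1 - s) + starRingEnd ℂ (μ j)).re = lam j * (1 - s.re) + (μ j).re := by
      simp
    rw [this]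
    have : 0 < lam j * (1 - s.re) := mul_pos h1 (by linarith)
    linarith
  have hP : ∏ j, Gamma ((lam j : ℂ) * (1 - s) + starRingEnd ℂ (μ j)) ≠ 0 :=
    Finset.prod_ne_zero_iff.2 fun j _ => hne j
  have hQs : (Q : ℂ) ^ s ≠ 0 := by
    rw [Complex.cpow_def_of_ne_zero hQc]; exact Complex.exp_ne_zero _
  have hQ2 : (Q : ℂ) ^ (1 - 2 * s) = (Q : ℂ) ^ (1 - s) / (Q : ℂ) ^ s := by
    rw [← Complex.cpow_sub _ _ hQc]
    congr 1
    ring
  rw [Finset.prod_inv_distrib, Finset.prod_inv_distrib] at h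
  unfold XX
  rw [Finset.prod_div_distrib, hQ2]
  generalize ∏ j, Gamma ((lam j : ℂ) * (1 - s) + starRingEnd ℂ (μ j)) = P at *
  generalize ∏ j, Gamma ((lam j : ℂ) * s + μ j) = R at *
  generalize (Q : ℂ) ^ s = q at *
  generalize (Q : ℂ) ^ (1 - s) = q' at *
  have h3 : G s * s ^ m = (q * P⁻¹ * (G s * s ^ m)) * (P / q) := by
    field_simp
  rw [h3, h]
  field_simp

/-- bound for the series to the right of `1` -/
theorem series_bound {a : ℕ → ℂ} (ha : Ram a) {η : ℝ} (hη : 0 < η) :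
    ∃ B : ℝ, 0 ≤ B ∧ ∀ s : ℂ, 1 + η ≤ s.re → ‖LSeries a s‖ ≤ B := by
  obtain ⟨C, hC⟩ := ha (η / 2) (by linarith)
  have hsum : Summable fun n : ℕ => |C| * (n : ℝ) ^ (-(1 + η / 2)) :=
    (Real.summable_nat_rpow.2 (by linarith)).mul_left _
  refine ⟨∑' n : ℕ, |C| * (n : ℝ) ^ (-(1 + η / 2)), tsum_nonneg fun n => by positivity, ?_⟩
  intro s hs
  unfold LSeries
  apply tsum_of_norm_bounded hsum.hasSum
  intro n
  rcases eq_or_ne n 0 with rfl | hn
  · simp only [LSeries.term_zero, norm_zero]; positivity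
  · rw [LSeries.term_of_ne_zero hn, norm_div, Complex.norm_natCast_cpow_of_pos (Nat.pos_of_ne_zero hn)]
    have hn1 : (1 : ℝ) ≤ n := by exact_mod_cast Nat.one_le_iff_ne_zero.2 hn
    have hn0 : (0 : ℝ) < n := by linarith
    rw [div_le_iff₀ (by positivity), mul_assoc, ← Real.rpow_add hn0]
    refine (hC n (Nat.one_le_iff_ne_zero.2 hn)).trans ?_
    have h1 : (n : ℝ) ^ (η / 2) ≤ (n : ℝ) ^ (-(1 + η / 2) + s.re) :=
      Real.rpow_le_rpow_of_exponent_le hn1 (by linarith)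
    calc C * (n : ℝ) ^ (η / 2) ≤ |C| * (n : ℝ) ^ (η / 2) := by
          gcongr; exact le_abs_self C
      _ ≤ _ := by gcongr

theorem taskST2 : Pool.Agent.H180R3.PO.TaskST := by
  intro _ hFEX a ha G hG Q k lam μ ω hQ hFE η hη0 hη1
  have hω : ω ≠ 0 := by
    intro h
    have := hFE.2.2.1
    rw [h, norm_zero] at this
    norm_num at this
  obtain ⟨c, hc, C, T, hC, hT, h⟩ := taskST' Q hQ k lam μ ω hFE.1 hω η
  obtain ⟨B, hB, hL⟩ := series_bound ha hη0
  refine ⟨c, stC Q k lam, -stA k μ, ‖c‖ * C * B, T, hc, hT, fun t ht => ?_⟩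
  have ht0 : 0 < t := by linarith
  set d : ℝ := 2 * ∑ j, lam j with hd
  set s : ℂ := -η + t * I with hs
  have hsre : s.re = -η := by simp [hs]
  have hsim : s.im = t := by simp [hs]
  have hs0 : s ≠ 0 := by
    intro h0
    rw [h0] at hsre
    simp at hsre
    linarith
  have hs1 : s - 1 ≠ 0 := by
    intro h0
    have : (s - 1).re = 0 := by rw [h0]; simp
    simp [hsre] at this
    linarith
  have hfe := fe_XX hFEX hG.1 hQ hFE (s := s) (by rw [hsre]; linarith)
  have hcs : 1 - starRingEnd ℂ s = 1 + η + t * I := by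
    rw [hs]; simp
    ring
  have hGr : G (1 - starRingEnd ℂ s) = (1 + η + t * I - 1) * LSeries a (1 + η + t * I) := by
    rw [hcs, hG.2.2 _ (by simp; linarith), pow_one]
  have hL1 : ‖starRingEnd ℂ (LSeries a (1 + η + t * I))‖ ≤ B := by
    rw [Complex.norm_conj]
    exact hL _ (by simp)
  have hmain : G s / (s - 1) = XX Q k lam μ ω s * starRingEnd ℂ (LSeries a (1 + η + t * I)) := by
    have e1 : starRingEnd ℂ (1 + η + t * I - 1) = -s := by
      rw [hs]; simp
      ring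
    rw [hGr, map_mul, e1, pow_one, pow_one, pow_one] at hfe
    rw [div_eq_iff hs1]
    have h2 : G s * s = (XX Q k lam μ ω s * starRingEnd ℂ (LSeries a (1 + η + t * I)) *
        (s - 1)) * s := by
      rw [hfe]; ring
    exact mul_right_cancel₀ hs0 h2
  have h1 := h t ht
  have e2 : (-(η : ℂ) + I * t) = s := by rw [hs]; ring
  rw [e2] at h1
  set F := XX Q k lam μ ω s * Gamma s with hF
  set g := stF d (stA k μ) (stC Q k lam) η t with hg
  have hg0 : g ≠ 0 := stF_ne _ _ _ _ _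
  have hcg : c * g ≠ 0 := mul_ne_zero hc hg0
  -- the main term
  have e3 : c * ((t ^ ((d - 1) * (1 / 2 + η)) : ℝ) : ℂ) *
      cexp (I * ((-(d - 1) * (t * Real.log t) + stC Q k lam * t - -stA k μ * Real.log t : ℝ) : ℂ)) =
      c * g * (Real.exp (Real.pi * t / 2) : ℂ) := by
    rw [hg, mul_assoc, mul_assoc]
    congr 1
    unfold stF
    rw [Real.rpow_def_of_pos ht0, Complex.ofReal_exp, Complex.ofReal_exp, ← Complex.exp_add,
      ← Complex.exp_add]
    congr 1
    push_cast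
    ring
  rw [hmain, e3]
  have e4 : XX Q k lam μ ω s * starRingEnd ℂ (LSeries a (1 + η + t * I)) * Gamma s *
      (Real.exp (Real.pi * t / 2) : ℂ) - c * g * (Real.exp (Real.pi * t / 2) : ℂ) *
        starRingEnd ℂ (LSeries a (1 + η + t * I)) =
      (F / (c * g) - 1) * (c * (g * (Real.exp (Real.pi * t / 2) : ℂ))) *
        starRingEnd ℂ (LSeries a (1 + η + t * I)) := by
    rw [sub_mul, div_mul_eq_mul_div, ← mul_assoc c, mul_comm F, mul_div_assoc, hF]
    field_simp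
  rw [e4, norm_mul, norm_mul, norm_mul c]
  have e5 : ‖g * (Real.exp (Real.pi * t / 2) : ℂ)‖ = t ^ ((d - 1) * (1 / 2 + η)) := by
    rw [norm_mul, hg, norm_stF' _ _ _ _ ht0, Complex.norm_real, Real.norm_of_nonneg (Real.exp_pos _).le,
      mul_assoc, ← Real.exp_add]
    have : -(Real.pi * t / 2) + Real.pi * t / 2 = 0 := by ring
    rw [this, Real.exp_zero, mul_one]
  rw [e5]
  have e6 : t ^ ((d - 1) * (1 / 2 + η) - 1) = t ^ ((d - 1) * (1 / 2 + η)) / t := by
    rw [Real.rpow_sub ht0, Real.rpow_one]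
  rw [e6]
  have hpow : 0 ≤ t ^ ((d - 1) * (1 / 2 + η)) := by positivity
  calc ‖F / (c * g) - 1‖ * (‖c‖ * t ^ ((d - 1) * (1 / 2 + η))) *
        ‖starRingEnd ℂ (LSeries a (1 + η + t * I))‖
      ≤ C / t * (‖c‖ * t ^ ((d - 1) * (1 / 2 + η))) * B := by gcongr
    _ = ‖c‖ * C * B * (t ^ ((d - 1) * (1 / 2 + η)) / t) := by ring

end Pool.Agent.H475R3.PO
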