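import Mathlib
import Pool.Agent.H475R3.PO.ST2

/-!
# Polynomial growth in vertical strips (TaskPG of the POLEORDER project)
-/

set_option autoImplicit false

namespace Pool.Agent.H475R3.PO

open Complex Filter Topology Asymptotics
open Pool.Agent.H336R4.PF Pool.Agent.H180R3.PO

lemma norm_stM_one (η : ℝ) {t : ℝ} (ht : 0 < t) : ‖stM 1 (-(η : ℂ)) t‖ =
    √(2 * Real.pi) * (t ^ (-η - 1 / 2) * Real.exp (-(Real.pi * t / 2))) := by
  unfold stM
  rw [norm_mul, Complex.norm_real, Real.norm_of_nonneg (Real.sqrt_nonneg _), Complex.norm_exp]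
  congr 1
  rw [Real.rpow_def_of_pos ht, ← Real.exp_add]
  congr 1
  simp
  ring

/-- polynomial bound for `X(s)` on the line `Re s = -η`, both signs of `t` -/
theorem norm_XX (Q : ℝ) (hQ : 0 < Q) (k : ℕ) (lam : Fin k → ℝ) (μ : Fin k → ℂ) (ω : ℂ)
    (hlam : ∀ j, 0 < lam j) (hω : ω ≠ 0) (η : ℝ) :
    ∃ C T : ℝ, 0 ≤ C ∧ 1 ≤ T ∧ ∀ t : ℝ, T ≤ |t| →
      ‖XX Q k lam μ ω (-η + I * t)‖ ≤ C * |t| ^ ((2 * ∑ j, lam j) * (1 / 2 + η)) := by
  have key : ∀ (μ : Fin k → ℂ) (ω : ℂ), ω ≠ 0 → ∃ C T : ℝ, 0 ≤ C ∧ 1 ≤ T ∧ ∀ t : ℝ, T ≤ t →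
      ‖XX Q k lam μ ω (-η + I * t)‖ ≤ C * t ^ ((2 * ∑ j, lam j) * (1 / 2 + η)) := by
    intro μ ω hω
    obtain ⟨c, hc, h⟩ := taskST Q hQ k lam μ ω hlam hω η
    have h2 := h.div (gamma_line one_pos (-(η : ℂ)))
    obtain ⟨C, T, hC, hT, h3⟩ := h2.bound (fun t => div_ne_zero
      (mul_ne_zero hc (stF_ne _ _ _ _ _)) (stM_ne _ _ _))
    refine ⟨(‖c‖ / √(2 * Real.pi)) * (1 + C), T, by positivity, hT, fun t ht => ?_⟩
    have ht0 : 0 < t := by linarith
    have h4 := h3 t ht
    have hGne : Gamma (-η + I * t) ≠ 0 := by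
      apply Complex.Gamma_ne_zero
      intro m hm
      have := congrArg Complex.im hm
      simp at this
      linarith
    have e1 : (-(η : ℂ) + I * ((1 * t : ℝ) : ℂ)) = -η + I * t := by push_cast; ring
    rw [e1, mul_div_cancel_right₀ _ hGne] at h4
    set F := XX Q k lam μ ω (-η + I * t) with hF
    set g := c * stF (2 * ∑ j, lam j) (stA k μ) (stC Q k lam) η t / stM 1 (-(η : ℂ)) t with hg
    have hg0 : g ≠ 0 := div_ne_zero (mul_ne_zero hc (stF_ne _ _ _ _ _)) (stM_ne _ _ _)
    have h5 : ‖F / g‖ ≤ 1 + C := by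
      have h6 : F / g = 1 + (F / g - 1) := by ring
      rw [h6]
      refine (norm_add_le _ _).trans ?_
      rw [norm_one]
      have : C / t ≤ C := div_le_self hC (by linarith)
      linarith
    rw [norm_div, div_le_iff₀ (norm_pos_iff.2 hg0)] at h5
    refine h5.trans (le_of_eq ?_)
    rw [hg, norm_div, norm_mul, norm_stF' _ _ _ _ ht0, norm_stM_one η ht0]
    have hs : √(2 * Real.pi) ≠ 0 := by positivity
    have e2 : (2 * ∑ j, lam j - 1) * (1 / 2 + η) =
        (2 * ∑ j, lam j) * (1 / 2 + η) + (-η - 1 / 2) := by ring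
    rw [e2, Real.rpow_add ht0]
    have h7 : t ^ (-η - 1 / 2) ≠ 0 := by positivity
    field_simp
  obtain ⟨C1, T1, hC1, hT1, h1⟩ := key μ ω hω
  obtain ⟨C2, T2, hC2, hT2, h2⟩ := key (fun j => starRingEnd ℂ (μ j)) (starRingEnd ℂ ω)
    (by simpa using hω)
  refine ⟨max C1 C2, max T1 T2, by positivity, le_trans hT1 (le_max_left _ _), fun t ht => ?_⟩
  rcases le_total 0 t with h0 | h0
  · rw [abs_of_nonneg h0] at ht ⊢
    refine (h1 t ((le_max_left _ _).trans ht)).trans ?_
    gcongr
    exact le_max_left _ _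
  · rw [abs_of_nonpos h0] at ht ⊢
    have h3 := h2 (-t) ((le_max_right _ _).trans ht)
    have h4 : XX Q k lam μ ω (-η + I * t) = starRingEnd ℂ
        (XX Q k lam (fun j => starRingEnd ℂ (μ j)) (starRingEnd ℂ ω) (-η + I * (-t : ℝ))) := by
      rw [XX_conj Q hQ]
      simp
    rw [h4, Complex.norm_conj]
    refine h3.trans ?_
    have h5 : 0 ≤ -t := by linarith
    gcongr
    exact le_max_right _ _

theorem taskPG : TaskPG := by
  intro _ hFEX hSG a ha m G hG Q k lam μ ω hQ hFE K
  have hω : ω ≠ 0 := by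
    intro h
    have := hFE.2.2.1
    rw [h, norm_zero] at this
    norm_num at this
  set K' : ℝ := max K 2 with hK'
  have hK2 : 2 ≤ K' := le_max_right _ _
  obtain ⟨B, hB, hL⟩ := series_bound ha (η := 1) one_pos
  -- right half plane bound
  have hright : ∀ s : ℂ, 2 ≤ s.re → ‖G s‖ ≤ B * ‖s - 1‖ ^ m := by
    intro s hs
    rw [hG.2.2 s (by linarith), norm_mul, norm_pow, mul_comm]
    gcongr
    exact hL s (by linarith)
  -- left line
  obtain ⟨C, T, hC, hT, hX⟩ := norm_XX Q hQ k lam μ ω hFE.1 hω K'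
  set E : ℝ := (2 * ∑ j, lam j) * (1 / 2 + K') with hE
  have hE0 : 0 ≤ E := by
    have : 0 ≤ ∑ j, lam j := Finset.sum_nonneg fun j _ => (hFE.1 j).le
    positivity
  obtain ⟨M, hM⟩ : ∃ M : ℝ, ∀ t : ℝ, |t| ≤ T → ‖G (-K' + I * t)‖ ≤ M := by
    have hcont : ContinuousOn (fun t : ℝ => ‖G (-K' + I * t)‖) (Set.Icc (-T) T) := by
      have : Continuous (fun t : ℝ => ‖G (-K' + I * t)‖) := by
        have h1 := hG.1.continuous
        fun_prop
      exact this.continuousOn
    obtain ⟨M, hM⟩ := isCompact_Icc.exists_bound_of_continuousOn hcont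
    refine ⟨M, fun t ht => ?_⟩
    have := hM t (abs_le.1 ht)
    simpa using this
  have hM0 : 0 ≤ M := (norm_nonneg _).trans (hM 0 (by simp; linarith))
  have hleft : ∀ t : ℝ, ‖G (-K' + I * t)‖ ≤ (M + C * B * (2 * K' + 1) ^ (2 * m)) *
      (1 + |t|) ^ (E + 2 * m) := by
    intro t
    have h1t : 1 ≤ 1 + |t| := by linarith [abs_nonneg t]
    have hp1 : 1 ≤ (1 + |t|) ^ (E + 2 * m) := Real.one_le_rpow h1t (by positivity)
    rcases le_total |t| T with ht | ht
    · calc ‖G (-K' + I * t)‖ ≤ M := hM t ht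
        _ ≤ M * (1 + |t|) ^ (E + 2 * m) := le_mul_of_one_le_right hM0 hp1
        _ ≤ _ := by
          gcongr
          have : 0 ≤ C * B * (2 * K' + 1) ^ (2 * m) := by positivity
          linarith
    · set s : ℂ := -K' + I * t with hs
      have hsre : s.re = -K' := by simp [hs]
      have hsim : s.im = t := by simp [hs]
      have hfe := fe_XX hFEX hG.1 hQ hFE (s := s) (by rw [hsre]; linarith)
      have hs1 : 1 ≤ ‖s‖ := by
        have := Complex.abs_re_le_norm s
        rw [hsre, abs_neg, abs_of_nonneg (by linarith)] at this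
        linarith
      have hn := congrArg norm hfe
      rw [norm_mul, norm_mul, norm_mul, norm_mul, norm_pow, norm_pow, norm_pow, norm_neg, norm_one,
        one_pow, one_mul, Complex.norm_conj] at hn
      have hns : ‖s‖ ≤ K' + |t| := by
        rw [hs]
        refine (norm_add_le _ _).trans ?_
        rw [norm_neg, norm_mul, norm_I, one_mul, Complex.norm_real, Complex.norm_real,
          Real.norm_of_nonneg (by linarith), Real.norm_eq_abs]
      have hns1 : ‖s - 1‖ ≤ (2 * K' + 1) * (1 + |t|) := by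
        refine (norm_sub_le _ _).trans ?_
        rw [norm_one]
        nlinarith [abs_nonneg t]
      have hG2 : ‖G (1 - starRingEnd ℂ s)‖ ≤ B * ((2 * K' + 1) * (1 + |t|)) ^ m := by
        refine (hright _ ?_).trans ?_
        · simp [hsre]; linarith
        · have e1 : (1 - starRingEnd ℂ s) - 1 = -(starRingEnd ℂ s) := by ring
          rw [e1, norm_neg, Complex.norm_conj]
          gcongr
          nlinarith [abs_nonneg t]
      have hXt := hX t ht
      have h2 : ‖G s‖ ≤ ‖G s‖ * ‖s‖ ^ m :=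
        le_mul_of_one_le_right (norm_nonneg _) (one_le_pow₀ hs1)
      rw [hn] at h2
      have htE : |t| ^ E ≤ (1 + |t|) ^ E := Real.rpow_le_rpow (abs_nonneg t) (by linarith) hE0
      calc ‖G s‖ ≤ ‖XX Q k lam μ ω s‖ * (‖G (1 - starRingEnd ℂ s)‖ * ‖s - 1‖ ^ m) := h2
        _ ≤ (C * (1 + |t|) ^ E) * ((B * ((2 * K' + 1) * (1 + |t|)) ^ m) *
            ((2 * K' + 1) * (1 + |t|)) ^ m) := by
          gcongr
          exact hXt.trans (by gcongr)
        _ = C * B * (2 * K' + 1) ^ (2 * m) * ((1 + |t|) ^ E * (1 + |t|) ^ (2 * m)) := by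
          rw [mul_pow, show 2 * m = m + m by ring, pow_add, pow_add]; ring
        _ = C * B * (2 * K' + 1) ^ (2 * m) * (1 + |t|) ^ (E + 2 * m) := by
          congr 1
          rw [Real.rpow_add (by linarith)]
          congr 1
          rw [← Real.rpow_natCast]
          push_cast
          rfl
        _ ≤ _ := by
          gcongr
          linarith
  -- the auxiliary function
  obtain ⟨N, hN⟩ := exists_nat_ge (E + 2 * m + m)
  obtain ⟨C3, A3, hC3, hA3, hsg⟩ := hSG a ha m G hG Q k lam μ ω hQ hFE K'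
  set D : ℝ := (M + C * B * (2 * K' + 1) ^ (2 * m)) + B * (2 * K' + 1) ^ m with hD
  have hD0 : 0 ≤ D := by positivity
  set f : ℂ → ℂ := fun s => G s / (s + (K' + 1)) ^ N with hf
  have hlow : ∀ s : ℂ, -K' ≤ s.re → (1 + |s.im|) / 2 ≤ ‖s + (K' + 1)‖ := by
    intro s hs
    have h1 := Complex.abs_re_le_norm (s + (K' + 1))
    have h2 := Complex.abs_im_le_norm (s + (K' + 1))
    have h3 : (s + ((K' : ℂ) + 1)).re = s.re + (K' + 1) := by simp
    have h4 : (s + ((K' : ℂ) + 1)).im = s.im := by simp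
    rw [h3, abs_of_nonneg (by linarith)] at h1
    rw [h4] at h2
    linarith
  have hup : ∀ s : ℂ, |s.re| ≤ K' → ‖s + (K' + 1)‖ ≤ (2 * K' + 1) * (1 + |s.im|) := by
    intro s hs
    have h1 := Complex.norm_le_abs_re_add_abs_im (s + (K' + 1))
    have h3 : (s + ((K' : ℂ) + 1)).re = s.re + (K' + 1) := by simp
    have h4 : (s + ((K' : ℂ) + 1)).im = s.im := by simp
    rw [h3, h4] at h1
    have h5 := (abs_le.1 hs).1
    have h6 := (abs_le.1 hs).2
    rw [abs_of_nonneg (by linarith)] at h1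
    nlinarith [abs_nonneg s.im]
  have hne : ∀ s : ℂ, -K' ≤ s.re → (s + ((K' : ℂ) + 1)) ≠ 0 := by
    intro s hs h0
    have := hlow s hs
    rw [h0, norm_zero] at this
    linarith [abs_nonneg s.im]
  -- bound for f from a bound for G
  have hfb : ∀ s : ℂ, -K' ≤ s.re → ‖G s‖ ≤ D * (1 + |s.im|) ^ N → ‖f s‖ ≤ D * 2 ^ N := by
    intro s hs hGs
    rw [hf]
    simp only
    rw [norm_div, norm_pow]
    have hpos : 0 < ‖s + ((K' : ℂ) + 1)‖ := norm_pos_iff.2 (hne s hs)
    rw [div_le_iff₀ (by positivity)]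
    refine hGs.trans ?_
    rw [mul_assoc, ← mul_pow]
    gcongr
    have := hlow s hs
    linarith
  have hstrip : ∀ s : ℂ, -K' ≤ s.re → s.re ≤ K' → ‖f s‖ ≤ D * 2 ^ N := by
    intro s hs1 hs2
    refine PhragmenLindelof.vertical_strip (f := f) (a := -K') (b := K') ?_ ?_ ?_ ?_ hs1 hs2
    · apply DifferentiableOn.diffContOnCl
      intro z hz
      have hz' : -K' ≤ z.re := by
        have : z ∈ re ⁻¹' (Set.Icc (-K') K') := by
          have h1 : closure (re ⁻¹' Set.Ioo (-K') K') ⊆ re ⁻¹' (Set.Icc (-K') K') := by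
            apply closure_minimal
            · exact Set.preimage_mono Set.Ioo_subset_Icc_self
            · exact isClosed_Icc.preimage Complex.continuous_re
          exact h1 hz
        exact this.1
      apply DifferentiableAt.differentiableWithinAt
      rw [hf]
      refine (hG.1 z).div (by fun_prop) (pow_ne_zero _ (hne z hz'))
    · refine ⟨Real.pi / (K' - -K') / 2, half_lt_self (div_pos Real.pi_pos (by linarith)),
        (A3 + Real.pi * (∑ j, lam j)) / (Real.pi / (K' - -K') / 2), ?_⟩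
      set c : ℝ := Real.pi / (K' - -K') / 2 with hc
      have hc0 : 0 < c := by
        have : 0 < K' - -K' := by linarith
        have := Real.pi_pos
        positivity
      have hlam0 : 0 ≤ ∑ j, lam j := Finset.sum_nonneg fun j _ => (hFE.1 j).le
      refine IsBigO.of_bound (C3 * 2 ^ N) ?_
      rw [eventually_inf_principal]
      refine Eventually.of_forall fun z hz => ?_
      have hz1 : -K' ≤ z.re := hz.1.le
      have hz2 : |z.re| ≤ K' := abs_le.2 ⟨hz.1.le, hz.2.le⟩
      have h1 := hsg z hz2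
      have h2 : ‖f z‖ ≤ ‖G z‖ * 2 ^ N := by
        rw [hf]
        simp only
        rw [norm_div, norm_pow]
        have hpos : 0 < ‖z + ((K' : ℂ) + 1)‖ := norm_pos_iff.2 (hne z hz1)
        rw [div_le_iff₀ (by positivity), mul_assoc, ← mul_pow]
        refine le_mul_of_one_le_right (norm_nonneg _) (one_le_pow₀ ?_)
        have := hlow z hz1
        linarith [abs_nonneg z.im]
      refine h2.trans ?_
      rw [Real.norm_of_nonneg (Real.exp_pos _).le]
      have h3 : (1 + |z.im|) ^ A3 ≤ Real.exp (A3 * |z.im|) := by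
        have h4 : 1 + |z.im| ≤ Real.exp |z.im| := by
          have := Real.add_one_le_exp |z.im|
          linarith
        calc (1 + |z.im|) ^ A3 ≤ (Real.exp |z.im|) ^ A3 :=
              Real.rpow_le_rpow (by positivity) h4 hA3
          _ = Real.exp (A3 * |z.im|) := by rw [← Real.exp_mul, mul_comm]
      have h5 : A3 * |z.im| + Real.pi * (∑ j, lam j) * |z.im| ≤
          (A3 + Real.pi * (∑ j, lam j)) / c * Real.exp (c * |z.im|) := by
        have h6 : c * |z.im| ≤ Real.exp (c * |z.im|) := by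
          have := Real.add_one_le_exp (c * |z.im|)
          linarith
        have h7 : 0 ≤ (A3 + Real.pi * (∑ j, lam j)) / c := by
          have := Real.pi_pos
          positivity
        calc A3 * |z.im| + Real.pi * (∑ j, lam j) * |z.im| =
              (A3 + Real.pi * (∑ j, lam j)) / c * (c * |z.im|) := by field_simp
          _ ≤ _ := by gcongr
      calc ‖G z‖ * 2 ^ N ≤ (C3 * (1 + |z.im|) ^ A3 * Real.exp (Real.pi * (∑ j, lam j) * |z.im|)) *
            2 ^ N := by gcongr
        _ ≤ (C3 * Real.exp (A3 * |z.im|) * Real.exp (Real.pi * (∑ j, lam j) * |z.im|)) *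
            2 ^ N := by gcongr
        _ = C3 * 2 ^ N * Real.exp (A3 * |z.im| + Real.pi * (∑ j, lam j) * |z.im|) := by
          rw [Real.exp_add]; ring
        _ ≤ C3 * 2 ^ N * Real.exp ((A3 + Real.pi * (∑ j, lam j)) / c * Real.exp (c * |z.im|)) := by
          gcongr
    · intro z hz
      apply hfb z (by rw [hz])
      have hz' : z = -K' + I * (z.im : ℝ) := by
        apply Complex.ext <;> simp [hz]
      have h1 := hleft z.im
      rw [← hz'] at h1
      refine h1.trans ?_
      have h1t : 1 ≤ 1 + |z.im| := by linarith [abs_nonneg z.im]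
      have h2 : (1 + |z.im|) ^ (E + 2 * m) ≤ (1 + |z.im|) ^ N := by
        rw [← Real.rpow_natCast]
        apply Real.rpow_le_rpow_of_exponent_le h1t
        have : (0 : ℝ) ≤ m := Nat.cast_nonneg m
        linarith
      gcongr
      rw [hD]
      have : 0 ≤ B * (2 * K' + 1) ^ m := by positivity
      linarith
    · intro z hz
      apply hfb z (by rw [hz]; linarith)
      refine (hright z (by rw [hz]; exact hK2)).trans ?_
      have h1 : ‖z - 1‖ ≤ (2 * K' + 1) * (1 + |z.im|) := by
        have h2 := Complex.norm_le_abs_re_add_abs_im (z - 1)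
        have h3 : (z - 1).re = K' - 1 := by simp [hz]
        have h4 : (z - 1).im = z.im := by simp
        rw [h3, h4, abs_of_nonneg (by linarith)] at h2
        nlinarith [abs_nonneg z.im]
      have h1t : 1 ≤ 1 + |z.im| := by linarith [abs_nonneg z.im]
      have hmN : m ≤ N := by
        have h5 : (m : ℝ) ≤ N := by
          have : (0 : ℝ) ≤ m := Nat.cast_nonneg m
          linarith
        exact_mod_cast h5
      calc B * ‖z - 1‖ ^ m ≤ B * ((2 * K' + 1) * (1 + |z.im|)) ^ m := by gcongr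
        _ = B * (2 * K' + 1) ^ m * (1 + |z.im|) ^ m := by rw [mul_pow]; ring
        _ ≤ B * (2 * K' + 1) ^ m * (1 + |z.im|) ^ N := by
          gcongr
        _ ≤ D * (1 + |z.im|) ^ N := by
          gcongr
          rw [hD]
          have : 0 ≤ (M + C * B * (2 * K' + 1) ^ (2 * m)) := by positivity
          linarith
  refine ⟨D * 2 ^ N * (2 * K' + 1) ^ N, N, by positivity, by positivity, fun s hs => ?_⟩
  have hsK : |s.re| ≤ K' := hs.trans (le_max_left _ _)
  obtain ⟨h1, h2⟩ := abs_le.1 hsK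
  have h3 := hstrip s h1 h2
  rw [hf] at h3
  simp only at h3
  rw [norm_div, norm_pow, div_le_iff₀ (pow_pos (norm_pos_iff.2 (hne s h1)) _)] at h3
  refine h3.trans ?_
  rw [Real.rpow_natCast, mul_assoc (D * 2 ^ N), ← mul_pow]
  gcongr
  exact hup s hsK

end Pool.Agent.H475R3.PO
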